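import Pool.Agent.H525.SH.Stm

set_option autoImplicit false

/-! # Inclusion and exclusion over the prime ideals above a set of prime numbers -/

namespace Pool.Agent.H525.SH.X

open Finset NumberField
open Pool.Agent.H525.SH

open scoped Classical

/-- prime ideals above different prime numbers are coprime -/
theorem coprime_of_ne {K : Type} [Field K] [NumberField K] {p q : ℕ} (hp : p.Prime) (hq : q.Prime)
    (hpq : p ≠ q) {P Q : Ideal (𝓞 K)} (hP : ((p : ℕ) : 𝓞 K) ∈ P) (hQ : ((q : ℕ) : 𝓞 K) ∈ Q) :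
    IsCoprime P Q := by
  rw [Ideal.isCoprime_iff_exists]
  have h1 : IsCoprime (p : ℤ) (q : ℤ) := Nat.isCoprime_iff_coprime.2 ((Nat.coprime_primes hp hq).2 hpq)
  obtain ⟨a, b, hab⟩ := h1
  refine ⟨(a : 𝓞 K) * (p : ℕ), P.mul_mem_left _ hP, (b : 𝓞 K) * (q : ℕ), Q.mul_mem_left _ hQ, ?_⟩
  have h2 : ((a * p + b * q : ℤ) : 𝓞 K) = ((1 : ℤ) : 𝓞 K) := congrArg _ hab
  push_cast at h2
  exact h2

/-- expansion of one factor -/
theorem one_factor {α : Type} (S : Finset α) (φ : α → ℝ) :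
    1 - ∏ P ∈ S, (1 - φ P) =
      ∑ A : ↥(S.powerset.erase ∅), (-1) ^ (A.1.card + 1) * ∏ P ∈ A.1, φ P := by
  have h1 : ∏ P ∈ S, (1 - φ P) = ∑ A ∈ S.powerset, (-1) ^ A.card * ∏ P ∈ A, φ P := by
    have h2 : ∏ P ∈ S, (1 - φ P) = ∏ P ∈ S, (-φ P + 1) := prod_congr rfl fun P _ => by ring
    rw [h2, prod_add]
    refine sum_congr rfl fun A _ => ?_
    rw [prod_const_one, mul_one, prod_neg]
  rw [h1, sum_coe_sort (S.powerset.erase ∅) (fun A => (-1 : ℝ) ^ (A.card + 1) * ∏ P ∈ A, φ P)]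
  rw [← add_sum_erase S.powerset _ (empty_mem_powerset S)]
  rw [card_empty, prod_empty, pow_zero, one_mul, sub_add_cancel_left, ← sum_neg_distrib]
  refine sum_congr rfl fun A _ => ?_
  rw [pow_succ]
  ring

theorem ie_aux (hPAF : S_PAF) (K : Type) [Field K] [NumberField K] (T : Finset ℕ) :
    (∀ p ∈ T, p.Prime) →
    ∃ (J : Type) (_ : Fintype J) (I : J → Ideal (𝓞 K)) (c : J → ℝ),
    Fintype.card J ≤ (2 ^ Module.finrank ℚ K) ^ T.card ∧
    (∀ j, |c j| ≤ 1 ∧ I j ≠ ⊥ ∧ (∏ p ∈ T, p) ∣ Ideal.absNorm (I j)) ∧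
    (∀ z : 𝓞 K, (if (∏ p ∈ T, p) ∣ (Algebra.norm ℤ z).natAbs then (1 : ℝ) else 0) =
      ∑ j, c j * (if z ∈ I j then 1 else 0)) ∧
    ∏ p ∈ T, hh K p = ∑ j, c j / (Ideal.absNorm (I j) : ℝ) ∧
    (∀ j, ∀ q : ℕ, q.Prime → q ∉ T → ∀ P : Ideal (𝓞 K), ((q : ℕ) : 𝓞 K) ∈ P → IsCoprime (I j) P) := by
  induction T using Finset.induction_on with
  | empty =>
    intro _
    refine ⟨Unit, inferInstance, fun _ => ⊤, fun _ => 1, by simp, ?_, ?_, ?_, ?_⟩
    · intro j
      refine ⟨by simp, ?_, by simp⟩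
      exact top_ne_bot
    · intro z; simp
    · simp
    · intro _ q _ _ P _
      rw [← Ideal.one_eq_top]
      exact isCoprime_one_left
  | insert p T hpT ih =>
    intro hT
    have hp : p.Prime := hT p (mem_insert_self p T)
    have hT' : ∀ q ∈ T, q.Prime := fun q hq => hT q (mem_insert_of_mem hq)
    obtain ⟨J, hJ, I, c, h1, h2, h3, h4, h5⟩ := ih hT'
    obtain ⟨a1, a2, a3, a4⟩ := hPAF K p hp
    have hprime : ∀ P ∈ PA K p, Prime P := by
      intro P hP
      refine Ideal.prime_of_isPrime ?_ ((a1 P).1 hP).1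
      rintro rfl
      obtain ⟨f, hf, h⟩ := a2 ⊥ hP
      rw [Ideal.absNorm_bot] at h
      exact absurd h.symm (pow_ne_zero _ hp.ne_zero)
    have hmem : ∀ P ∈ PA K p, ((p : ℕ) : 𝓞 K) ∈ P := fun P hP => ((a1 P).1 hP).2
    have hA : ∀ A : ↥((PA K p).powerset.erase ∅), A.1 ⊆ PA K p ∧ A.1.Nonempty := by
      rintro ⟨A, hA⟩
      rw [mem_erase, mem_powerset] at hA
      exact ⟨hA.2, nonempty_iff_ne_empty.2 hA.1⟩
    have hcop : ∀ (j : J) (A : ↥((PA K p).powerset.erase ∅)), IsCoprime (I j) (∏ P ∈ A.1, P) := by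
      intro j A
      refine IsCoprime.prod_right fun P hP => ?_
      exact h5 j p hp hpT P (hmem P ((hA A).1 hP))
    have hmemA : ∀ (A : ↥((PA K p).powerset.erase ∅)) (z : 𝓞 K),
        z ∈ ∏ P ∈ A.1, P ↔ ∀ P ∈ A.1, z ∈ P := by
      intro A z
      have e := IsDedekindDomain.inf_pow_eq_prod_of_prime A.1 (fun P : Ideal (𝓞 K) => P) (fun _ => 1)
        (fun P hP => hprime P ((hA A).1 hP)) (fun P _ Q _ h => h)
      simp only [pow_one] at e
      rw [← e, Submodule.mem_finsetInf]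
    have hmem2 : ∀ (j : J) (A : ↥((PA K p).powerset.erase ∅)) (z : 𝓞 K),
        z ∈ I j * ∏ P ∈ A.1, P ↔ z ∈ I j ∧ ∀ P ∈ A.1, z ∈ P := by
      intro j A z
      rw [Ideal.mul_eq_inf_of_coprime (Ideal.isCoprime_iff_sup_eq.1 (hcop j A)), Ideal.mem_inf,
        hmemA]
    have hcopn : p.Coprime (∏ q ∈ T, q) := by
      refine Nat.Coprime.prod_right fun q hq => ?_
      refine (Nat.coprime_primes hp (hT' q hq)).2 ?_
      rintro rfl
      exact hpT hq
    refine ⟨J × ↥((PA K p).powerset.erase ∅), inferInstance, fun x => I x.1 * ∏ P ∈ x.2.1, P,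
      fun x => c x.1 * (-1) ^ (x.2.1.card + 1), ?_, ?_, ?_, ?_, ?_⟩
    · rw [Fintype.card_prod, card_insert_of_notMem hpT, pow_succ]
      refine Nat.mul_le_mul h1 ?_
      rw [Fintype.card_coe]
      refine (card_erase_le).trans ?_
      rw [card_powerset]
      exact Nat.pow_le_pow_right (by norm_num) a3
    · rintro ⟨j, A⟩
      obtain ⟨b1, b2, b3⟩ := h2 j
      refine ⟨?_, ?_, ?_⟩
      · simp only
        rw [abs_mul, abs_pow, abs_neg, abs_one, one_pow, mul_one]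
        exact b1
      · simp only
        refine mul_ne_zero b2 ?_
        rw [prod_ne_zero_iff]
        exact fun P hP => (hprime P ((hA A).1 hP)).ne_zero
      · simp only
        rw [prod_insert hpT, map_mul, map_prod, mul_comm p]
        refine mul_dvd_mul b3 ?_
        obtain ⟨P, hP⟩ := (hA A).2
        refine Dvd.dvd.trans ?_ (dvd_prod_of_mem _ hP)
        obtain ⟨f, hf, h⟩ := a2 P ((hA A).1 hP)
        rw [h]
        exact dvd_pow_self p (by omega)
    · intro z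
      have e1 : (if (∏ q ∈ insert p T, q) ∣ (Algebra.norm ℤ z).natAbs then (1 : ℝ) else 0) =
          (if (∏ q ∈ T, q) ∣ (Algebra.norm ℤ z).natAbs then (1 : ℝ) else 0) *
            (if p ∣ (Algebra.norm ℤ z).natAbs then (1 : ℝ) else 0) := by
        rw [prod_insert hpT]
        by_cases c1 : p ∣ (Algebra.norm ℤ z).natAbs
        · by_cases c2 : (∏ q ∈ T, q) ∣ (Algebra.norm ℤ z).natAbs
          · rw [if_pos (hcopn.mul_dvd_of_dvd_of_dvd c1 c2), if_pos c1, if_pos c2, one_mul]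
          · rw [if_neg c2, if_neg (fun h => c2 ((dvd_mul_left _ _).trans h)), zero_mul]
        · rw [if_neg c1, if_neg (fun h => c1 ((dvd_mul_right _ _).trans h)), mul_zero]
      have e2 : (if p ∣ (Algebra.norm ℤ z).natAbs then (1 : ℝ) else 0) =
          1 - ∏ P ∈ PA K p, (1 - (if z ∈ P then (1 : ℝ) else 0)) := by
        by_cases c1 : p ∣ (Algebra.norm ℤ z).natAbs
        · rw [if_pos c1]
          obtain ⟨P, hP, hz⟩ := (a4 z).1 c1
          rw [prod_eq_zero hP (by rw [if_pos hz, sub_self]), sub_zero]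
        · rw [if_neg c1, prod_eq_one, sub_self]
          intro P hP
          rw [if_neg (fun hz => c1 ((a4 z).2 ⟨P, hP, hz⟩)), sub_zero]
      rw [e1, e2, h3 z, one_factor, sum_mul_sum, ← Fintype.sum_prod_type']
      refine sum_congr rfl fun x _ => ?_
      have e3 : ∏ P ∈ x.2.1, (if z ∈ P then (1 : ℝ) else 0) = if ∀ P ∈ x.2.1, z ∈ P then 1 else 0 := by
        by_cases c1 : ∀ P ∈ x.2.1, z ∈ P
        · rw [if_pos c1, prod_eq_one]
          intro P hP
          rw [if_pos (c1 P hP)]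
        · rw [if_neg c1]
          push Not at c1
          obtain ⟨P, hP, hz⟩ := c1
          exact prod_eq_zero hP (if_neg hz)
      rw [e3]
      by_cases c1 : z ∈ I x.1
      · by_cases c2 : ∀ P ∈ x.2.1, z ∈ P
        · rw [if_pos c1, if_pos c2, if_pos ((hmem2 x.1 x.2 z).2 ⟨c1, c2⟩)]
          ring
        · rw [if_neg c2, if_neg (fun h => c2 ((hmem2 x.1 x.2 z).1 h).2)]
          ring
      · rw [if_neg c1, if_neg (fun h => c1 ((hmem2 x.1 x.2 z).1 h).1)]
        ring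
    · rw [prod_insert hpT, h4, mul_comm]
      have e1 : hh K p = ∑ A : ↥((PA K p).powerset.erase ∅), (-1) ^ (A.1.card + 1) *
          ∏ P ∈ A.1, (1 / (Ideal.absNorm P : ℝ)) := by
        rw [hh]
        exact one_factor (PA K p) (fun P => 1 / (Ideal.absNorm P : ℝ))
      rw [e1, sum_mul_sum, ← Fintype.sum_prod_type']
      refine sum_congr rfl fun x _ => ?_
      rw [map_mul, map_prod, Nat.cast_mul, Nat.cast_prod, prod_div_distrib, prod_const_one]
      ring
    · rintro ⟨j, A⟩ q hq hqT P hP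
      rw [mem_insert, not_or] at hqT
      refine IsCoprime.mul_left (h5 j q hq hqT.2 P hP) (IsCoprime.prod_left fun Q hQ => ?_)
      exact coprime_of_ne hp hq (Ne.symm hqT.1) (hmem Q ((hA A).1 hQ)) hP

theorem t_IE (hPAF : S_PAF) : S_IE := by
  intro K _ _ T hT
  obtain ⟨J, hJ, I, c, h1, h2, h3, h4, -⟩ := ie_aux hPAF K T hT
  exact ⟨J, hJ, I, c, h1, h2, h3, h4⟩

end Pool.Agent.H525.SH.X
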