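import Pool.Agent.H525.SH.Stm
import Pool.Agent.H525.NF.Basic
import Pool.Agent.H525.ISO.Coord

/-!
# The number of the points of a box in an ideal, with an error term (LAT)
-/

set_option autoImplicit false

namespace Pool.Agent.H525.SH.X

open Finset NumberField
open Pool.Agent.H525.NF (Box mem_Box card_Box th th_apply th_inj emb_bound norm_le absNorm_le_of_mem)

open scoped Classical

section count

variable {ι : Type} [Fintype ι]

/-- packing in a box with sides of different lengths -/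
theorem packbox (lo hi : ι → ℤ) (hlh : ∀ i, lo i ≤ hi i) (σ : ℝ) (hσ : 0 < σ)
    (S : Finset (ι → ℤ)) (hS : ∀ w ∈ S, ∀ i, lo i ≤ w i ∧ w i ≤ hi i)
    (h : ∀ w ∈ S, ∀ w' ∈ S, w ≠ w' → ∃ i, σ ≤ |((w i : ℤ) : ℝ) - w' i|) :
    (S.card : ℝ) ≤ ∏ i, (((hi i : ℝ) - lo i) / σ + 2) := by
  set f : (ι → ℤ) → (ι → ℤ) := fun w i => ⌊(w i : ℝ) / σ⌋ with hf
  have h1 : S.card ≤ (Fintype.piFinset (fun i : ι =>
      Finset.Icc ⌊(lo i : ℝ) / σ⌋ ⌊(hi i : ℝ) / σ⌋)).card := by
    apply Finset.card_le_card_of_injOn f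
    · intro w hw
      rw [Finset.mem_coe, Fintype.mem_piFinset]
      intro i
      have h2 := hS w hw i
      rw [Finset.mem_Icc]
      have h3 : (lo i : ℝ) ≤ w i := by exact_mod_cast h2.1
      have h4 : (w i : ℝ) ≤ hi i := by exact_mod_cast h2.2
      exact ⟨Int.floor_le_floor (div_le_div_of_nonneg_right h3 hσ.le),
        Int.floor_le_floor (div_le_div_of_nonneg_right h4 hσ.le)⟩
    · intro w hw w' hw' hww
      by_contra hne
      obtain ⟨i, hi⟩ := h w hw w' hw' hne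
      have h2 : ⌊(w i : ℝ) / σ⌋ = ⌊(w' i : ℝ) / σ⌋ := congrFun hww i
      have h3 := Int.abs_sub_lt_one_of_floor_eq_floor h2
      rw [← sub_div, abs_div, abs_of_pos hσ, div_lt_one hσ] at h3
      linarith
  have h2 : (S.card : ℝ) ≤ ((Fintype.piFinset (fun i : ι =>
      Finset.Icc ⌊(lo i : ℝ) / σ⌋ ⌊(hi i : ℝ) / σ⌋)).card : ℝ) := by exact_mod_cast h1
  refine h2.trans ?_
  rw [Fintype.card_piFinset, Nat.cast_prod]
  refine Finset.prod_le_prod (fun _ _ => Nat.cast_nonneg _) fun i _ => ?_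
  rw [Int.card_Icc]
  have h3 : (lo i : ℝ) / σ < ⌊(lo i : ℝ) / σ⌋ + 1 := Int.lt_floor_add_one _
  have h4 : (⌊(hi i : ℝ) / σ⌋ : ℝ) ≤ (hi i : ℝ) / σ := Int.floor_le _
  have h5 : ⌊(lo i : ℝ) / σ⌋ ≤ ⌊(hi i : ℝ) / σ⌋ := by
    apply Int.floor_le_floor
    apply div_le_div_of_nonneg_right _ hσ.le
    exact_mod_cast hlh i
  have h6 : (((⌊(hi i : ℝ) / σ⌋ + 1 - ⌊(lo i : ℝ) / σ⌋).toNat : ℕ) : ℝ) =
      ⌊(hi i : ℝ) / σ⌋ + 1 - ⌊(lo i : ℝ) / σ⌋ := by
    have h7 : 0 ≤ ⌊(hi i : ℝ) / σ⌋ + 1 - ⌊(lo i : ℝ) / σ⌋ := by linarith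
    have h8 := Int.toNat_of_nonneg h7
    have h9 : (((⌊(hi i : ℝ) / σ⌋ + 1 - ⌊(lo i : ℝ) / σ⌋).toNat : ℤ) : ℝ) =
      ((⌊(hi i : ℝ) / σ⌋ + 1 - ⌊(lo i : ℝ) / σ⌋ : ℤ) : ℝ) := by rw [h8]
    push_cast at h9
    rw [← h9]
  rw [h6, sub_div]
  linarith

/-- one slab -/
theorem slab_count (lo hi : ι → ℤ) (i₀ : ι) (A B : ℝ) (hA : ((hi i₀ : ℝ) - lo i₀) = A)
    (hB : ∀ i, i ≠ i₀ → ((hi i : ℝ) - lo i) = B) (hlh : ∀ i, lo i ≤ hi i) (σ : ℝ) (hσ : 0 < σ)
    (S : Finset (ι → ℤ)) (hS : ∀ w ∈ S, ∀ i, lo i ≤ w i ∧ w i ≤ hi i)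
    (h : ∀ w ∈ S, ∀ w' ∈ S, w ≠ w' → ∃ i, σ ≤ |((w i : ℤ) : ℝ) - w' i|) :
    (S.card : ℝ) ≤ (A / σ + 2) * (B / σ + 2) ^ (Fintype.card ι - 1) := by
  refine (packbox lo hi hlh σ hσ S hS h).trans (le_of_eq ?_)
  rw [← Finset.mul_prod_erase univ _ (mem_univ i₀), hA]
  congr 1
  rw [Finset.prod_congr rfl (g := fun _ => B / σ + 2) fun i hi' => by
    rw [hB i (Finset.ne_of_mem_erase hi')], Finset.prod_const,
    Finset.card_erase_of_mem (mem_univ _), Finset.card_univ]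

/-- translation of the box -/
theorem shift {G : Type} [AddCommGroup G] (π : (ι → ℤ) →+ G) (a v : ι → ℤ) (W R : ℕ)
    (hv : ∀ i, |v i| ≤ R) (σ : ℝ) (hσ : 0 < σ)
    (hsep : ∀ w : ι → ℤ, w ≠ 0 → π w = 0 → ∃ i, σ ≤ |((w i : ℤ) : ℝ)|) (g g' : G)
    (hg : π v = g' - g) :
    (((Box a W).filter (fun w => π w = g)).card : ℝ) ≤
      ((Box a W).filter (fun w => π w = g')).card + 2 * Fintype.card ι *
        (((R : ℝ) / σ + 2) * (((W : ℝ) + 2 * R) / σ + 2) ^ (Fintype.card ι - 1)) := by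
  have h1 : ((Box a W).filter (fun w => π w = g)).card ≤
      ((Box (a + v) W).filter (fun w => π w = g')).card := by
    apply Finset.card_le_card_of_injOn (fun w => w + v)
    · intro w hw
      rw [Finset.mem_coe, mem_filter, mem_Box] at hw
      rw [Finset.mem_coe, mem_filter, mem_Box]
      refine ⟨fun i => ?_, ?_⟩
      · have h2 := hw.1 i
        show a i + v i ≤ w i + v i ∧ w i + v i < a i + v i + W
        omega
      · rw [map_add, hw.2, hg]
        abel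
    · intro w _ w' _ h
      exact add_right_cancel h
  set S := ((Box (a + v) W).filter (fun w => π w = g')) \ Box a W with hSdef
  have h2 : ((Box (a + v) W).filter (fun w => π w = g')).card ≤
      ((Box a W).filter (fun w => π w = g')).card + S.card := by
    have h3 : (Box (a + v) W).filter (fun w => π w = g') ⊆
        (Box a W).filter (fun w => π w = g') ∪ S := by
      intro w hw
      rw [mem_union, mem_filter, hSdef, mem_sdiff]
      by_cases h : w ∈ Box a W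
      · exact Or.inl ⟨h, (mem_filter.1 hw).2⟩
      · exact Or.inr ⟨hw, h⟩
    exact (Finset.card_le_card h3).trans (Finset.card_union_le _ _)
  -- the slabs
  let T : ι × Bool → Finset (ι → ℤ) := fun p => S.filter fun w =>
    if p.2 = true then w p.1 ≤ a p.1 ∧ a p.1 - R ≤ w p.1 else
      a p.1 + W ≤ w p.1 ∧ w p.1 ≤ a p.1 + W + R
  have h3 : S ⊆ univ.biUnion T := by
    intro w hw
    have hw' := hw
    rw [hSdef, mem_sdiff, mem_filter, mem_Box] at hw'
    obtain ⟨⟨hb, -⟩, hnb⟩ := hw'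
    rw [mem_Box] at hnb
    push Not at hnb
    obtain ⟨i, hi⟩ := hnb
    have hbi := hb i
    have hvi := abs_le.1 (hv i)
    rw [Pi.add_apply] at hbi
    rw [mem_biUnion]
    by_cases hlt : a i ≤ w i
    · refine ⟨(i, false), mem_univ _, mem_filter.2 ⟨hw, ?_⟩⟩
      have := hi hlt
      simp only [Bool.false_eq_true, if_false]
      constructor <;> omega
    · refine ⟨(i, true), mem_univ _, mem_filter.2 ⟨hw, ?_⟩⟩
      simp only [if_true]
      constructor <;> omega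
  have hsepS : ∀ w ∈ S, ∀ w' ∈ S, w ≠ w' → ∃ i, σ ≤ |((w i : ℤ) : ℝ) - w' i| := by
    intro w hw w' hw' hne
    rw [hSdef, mem_sdiff, mem_filter] at hw hw'
    obtain ⟨i, hi⟩ := hsep (w - w') (sub_ne_zero.2 hne) (by
      rw [map_sub, hw.1.2, hw'.1.2, sub_self])
    refine ⟨i, ?_⟩
    rw [Pi.sub_apply] at hi
    push_cast at hi
    exact hi
  have hS : ∀ w ∈ S, ∀ i, a i - R ≤ w i ∧ w i ≤ a i + W + R := by
    intro w hw i
    rw [hSdef, mem_sdiff, mem_filter, mem_Box] at hw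
    have h4 := hw.1.1 i
    have hvi := abs_le.1 (hv i)
    rw [Pi.add_apply] at h4
    constructor <;> omega
  have h4 : ∀ p, ((T p).card : ℝ) ≤
      ((R : ℝ) / σ + 2) * (((W : ℝ) + 2 * R) / σ + 2) ^ (Fintype.card ι - 1) := by
    rintro ⟨i, c⟩
    have hTS : T (i, c) ⊆ S := filter_subset _ _
    cases c with
    | true =>
      refine slab_count (fun j => a j - R) (fun j => if j = i then a j else a j + W + R) i _ _
        ?_ ?_ ?_ σ hσ _ ?_ fun w hw w' hw' => hsepS w (hTS hw) w' (hTS hw')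
      · simp only [if_true]
        push_cast
        ring
      · intro j hj
        simp only [if_neg hj]
        push_cast
        ring
      · intro j
        split_ifs <;> omega
      · intro w hw j
        have h5 := hS w (hTS hw) j
        have h6 := (mem_filter.1 hw).2
        simp only [if_true] at h6
        split_ifs with hj
        · subst hj
          exact ⟨h5.1, h6.1⟩
        · exact h5
    | false =>
      refine slab_count (fun j => if j = i then a j + W else a j - R) (fun j => a j + W + R) i _ _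
        ?_ ?_ ?_ σ hσ _ ?_ fun w hw w' hw' => hsepS w (hTS hw) w' (hTS hw')
      · simp only [if_true]
        push_cast
        ring
      · intro j hj
        simp only [if_neg hj]
        push_cast
        ring
      · intro j
        split_ifs <;> omega
      · intro w hw j
        have h5 := hS w (hTS hw) j
        have h6 := (mem_filter.1 hw).2
        simp only [Bool.false_eq_true, if_false] at h6
        split_ifs with hj
        · subst hj
          exact ⟨h6.1, h5.2⟩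
        · exact h5
  have h5 : (S.card : ℝ) ≤ 2 * Fintype.card ι *
      (((R : ℝ) / σ + 2) * (((W : ℝ) + 2 * R) / σ + 2) ^ (Fintype.card ι - 1)) := by
    have h6 : (S.card : ℝ) ≤ ∑ p : ι × Bool, ((T p).card : ℝ) := by
      have h7 := (Finset.card_le_card h3).trans Finset.card_biUnion_le
      exact_mod_cast h7
    refine h6.trans ((Finset.sum_le_sum fun p _ => h4 p).trans (le_of_eq ?_))
    rw [Finset.sum_const, Finset.card_univ, Fintype.card_prod, Fintype.card_bool, nsmul_eq_mul]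
    push_cast
    ring
  have h6 : (((Box a W).filter (fun w => π w = g)).card : ℝ) ≤
      ((Box a W).filter (fun w => π w = g')).card + S.card := by
    exact_mod_cast h1.trans h2
  linarith

/-- equidistribution of the classes of a finite quotient of `ℤ^d` in a box -/
theorem count_avg {G : Type} [AddCommGroup G] [Fintype G] (π : (ι → ℤ) →+ G) (R : ℕ)
    (hR : ∀ g : G, ∃ v : ι → ℤ, (∀ i, |v i| ≤ R) ∧ π v = g) (σ : ℝ) (hσ : 0 < σ)
    (hsep : ∀ w : ι → ℤ, w ≠ 0 → π w = 0 → ∃ i, σ ≤ |((w i : ℤ) : ℝ)|) (a : ι → ℤ) (W : ℕ) :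
    |(((Box a W).filter (fun w => π w = 0)).card : ℝ) -
      (W : ℝ) ^ Fintype.card ι / Fintype.card G| ≤ 2 * Fintype.card ι *
        (((R : ℝ) / σ + 2) * (((W : ℝ) + 2 * R) / σ + 2) ^ (Fintype.card ι - 1)) := by
  set E : ℝ := 2 * Fintype.card ι *
        (((R : ℝ) / σ + 2) * (((W : ℝ) + 2 * R) / σ + 2) ^ (Fintype.card ι - 1)) with hE
  set N : G → ℝ := fun g => (((Box a W).filter (fun w => π w = g)).card : ℝ) with hN
  have hcmp : ∀ x y : G, N x ≤ N y + E := by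
    intro x y
    obtain ⟨v, hv1, hv2⟩ := hR (y - x)
    exact shift π a v W R hv1 σ hσ hsep x y hv2
  have hsum : ∑ x : G, N x = (W : ℝ) ^ Fintype.card ι := by
    have h1 := Finset.card_eq_sum_card_fiberwise (f := π) (s := Box a W) (t := univ)
      (fun w _ => Finset.mem_coe.2 (Finset.mem_univ _))
    rw [card_Box] at h1
    have h2 : ((W ^ Fintype.card ι : ℕ) : ℝ) = ∑ x : G, N x := by
      rw [h1]
      push_cast
      rfl
    rw [← h2]
    push_cast
    rfl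
  have hG : (0:ℝ) < Fintype.card G := by
    have : Nonempty G := ⟨0⟩
    exact_mod_cast Fintype.card_pos
  have hup : Fintype.card G * N 0 ≤ (W : ℝ) ^ Fintype.card ι + Fintype.card G * E := by
    have h1 : ∑ x : G, N 0 ≤ ∑ x : G, (N x + E) := Finset.sum_le_sum (fun x _ => hcmp 0 x)
    rw [Finset.sum_add_distrib, hsum, Finset.sum_const, Finset.sum_const, Finset.card_univ,
      nsmul_eq_mul, nsmul_eq_mul] at h1
    exact h1
  have hlo : (W : ℝ) ^ Fintype.card ι ≤ Fintype.card G * N 0 + Fintype.card G * E := by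
    have h1 : ∑ x : G, N x ≤ ∑ x : G, (N 0 + E) := Finset.sum_le_sum (fun x _ => hcmp x 0)
    rw [Finset.sum_add_distrib, hsum, Finset.sum_const, Finset.sum_const, Finset.card_univ,
      nsmul_eq_mul, nsmul_eq_mul] at h1
    exact h1
  rw [abs_le]
  constructor
  · rw [neg_le_sub_iff_le_add, div_le_iff₀ hG]
    have h3 : N 0 = (((Box a W).filter (fun w => π w = 0)).card : ℝ) := rfl
    rw [← h3]
    linarith
  · rw [sub_le_iff_le_add]
    have h1 : N 0 ≤ E + (W : ℝ) ^ Fintype.card ι / Fintype.card G := by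
      have h2 : N 0 = (Fintype.card G * N 0) / Fintype.card G := by field_simp
      rw [h2, div_le_iff₀ hG, add_mul, div_mul_cancel₀ _ hG.ne']
      linarith
    exact h1

end count

section field

variable {K : Type} [Field K] [NumberField K] {ι : Type} [Fintype ι]

/-- a short vector in the kernel -/
theorem short {G : Type} [AddCommGroup G] [Fintype G] (π : (ι → ℤ) →+ G) (hd : 1 ≤ Fintype.card ι)
    (s : ℝ) (hs : 0 < s) (hN : s ^ Fintype.card ι = Fintype.card G) :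
    ∃ x : ι → ℤ, x ≠ 0 ∧ π x = 0 ∧ ∀ i, |((x i : ℤ) : ℝ)| ≤ s := by
  set m := ⌊s⌋₊ with hm
  have h1 : Fintype.card G < (Box (0 : ι → ℤ) (m + 1)).card := by
    rw [card_Box]
    have h2 : s < (m : ℝ) + 1 := Nat.lt_floor_add_one s
    have h3 : s ^ Fintype.card ι < ((m : ℝ) + 1) ^ Fintype.card ι :=
      pow_lt_pow_left₀ h2 hs.le (by omega)
    rw [hN] at h3
    exact_mod_cast h3
  obtain ⟨x, hx, y, hy, hne, hxy⟩ := Finset.exists_ne_map_eq_of_card_lt_of_maps_to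
    (s := Box (0 : ι → ℤ) (m + 1)) (t := univ) (by rwa [Finset.card_univ]) (f := π)
    (fun _ _ => Finset.mem_coe.2 (mem_univ _))
  refine ⟨x - y, sub_ne_zero.2 hne, by rw [map_sub, hxy, sub_self], fun i => ?_⟩
  have h2 := mem_Box.1 hx i
  have h3 := mem_Box.1 hy i
  rw [Pi.zero_apply] at h2 h3
  push_cast at h2 h3
  have h4 : |(x - y) i| ≤ m := by
    rw [Pi.sub_apply, abs_le]
    constructor <;> omega
  have h5 : |(((x - y) i : ℤ) : ℝ)| ≤ m := by exact_mod_cast h4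
  exact h5.trans (Nat.floor_le hs.le)

/-- representatives modulo a principal ideal -/
theorem rep (b : Module.Basis ι ℤ (𝓞 K)) (γ z : 𝓞 K) (hγ : γ ≠ 0) :
    ∃ (q : 𝓞 K) (c : ι → ℝ), (∀ i, 0 ≤ c i ∧ c i ≤ 1) ∧ ∀ σ : K →ₐ[ℚ] ℂ,
      σ ((z - γ * q : 𝓞 K) : K) = σ (γ : K) * ∑ i, (c i : ℂ) * σ (b i : K) := by
  let b' : Module.Basis ι ℚ K := b.localizationLocalization ℚ (nonZeroDivisors ℤ) K
  have hb' : ∀ j, b' j = (b j : K) := fun j =>
    Module.Basis.localizationLocalization_apply ℚ (nonZeroDivisors ℤ) K b j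
  have hγK : (γ : K) ≠ 0 := by exact_mod_cast hγ
  set r : ι → ℚ := fun i => b'.repr ((z : K) / (γ : K)) i with hr
  have hsum : ∑ i, r i • (b i : K) = (z : K) / (γ : K) := by
    have h1 := b'.sum_repr ((z : K) / (γ : K))
    rw [← h1]
    refine Finset.sum_congr rfl fun i _ => ?_
    rw [hb']
  refine ⟨∑ i, ⌊r i⌋ • b i, fun i => ((Int.fract (r i) : ℚ) : ℝ), fun i => ⟨?_, ?_⟩, fun σ => ?_⟩
  · have h0 : (0:ℚ) ≤ Int.fract (r i) := Int.fract_nonneg (r i)
    show (0:ℝ) ≤ ((Int.fract (r i) : ℚ) : ℝ)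
    exact_mod_cast h0
  · have h0 : (Int.fract (r i)) ≤ (1:ℚ) := (Int.fract_lt_one (r i)).le
    show ((Int.fract (r i) : ℚ) : ℝ) ≤ 1
    exact_mod_cast h0
  · have h1 : ((z - γ * ∑ i, ⌊r i⌋ • b i : 𝓞 K) : K) =
        (γ : K) * ∑ i, (Int.fract (r i)) • (b i : K) := by
      have h2 : ∑ i, (Int.fract (r i)) • (b i : K) =
          (z : K) / (γ : K) - ∑ i, (⌊r i⌋ : ℚ) • (b i : K) := by
        rw [← hsum, ← Finset.sum_sub_distrib]
        refine Finset.sum_congr rfl fun i _ => ?_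
        rw [← sub_smul]
        rfl
      rw [h2, mul_sub, mul_div_cancel₀ _ hγK]
      have h3 : ((∑ i, ⌊r i⌋ • b i : 𝓞 K) : K) = ∑ i, (⌊r i⌋ : ℚ) • (b i : K) := by
        have h4 : ((∑ i, ⌊r i⌋ • b i : 𝓞 K) : K) = algebraMap (𝓞 K) K (∑ i, ⌊r i⌋ • b i) := rfl
        rw [h4, map_sum]
        refine Finset.sum_congr rfl fun i _ => ?_
        rw [zsmul_eq_mul, map_mul, map_intCast, Algebra.smul_def]
        simp
      rw [← h3]
      push_cast
      rfl
    rw [h1, map_mul, map_sum]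
    congr 1
    refine Finset.sum_congr rfl fun i _ => ?_
    rw [Algebra.smul_def, map_mul, AlgHom.commutes]
    congr 1

end field

section main

theorem arith (d : ℕ) (hd : 1 ≤ d) (C₁ C₄ s W R : ℝ) (hC₁ : 1 ≤ C₁) (hC₄ : 0 ≤ C₄) (hs : 1 ≤ s)
    (hW : 0 ≤ W) (hR0 : 0 ≤ R) (hR : R ≤ C₄ * s + 1) :
    2 * (d : ℝ) * ((R / (s / (2 * C₁)) + 2) * ((W + 2 * R) / (s / (2 * C₁)) + 2) ^ (d - 1)) ≤
      (2 * d * ((2 * C₁ * (C₄ + 1) + 2) * (4 * C₁ * (C₄ + 2)) ^ (d - 1)) * 2 ^ (d - 1) + 1) *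
        ((W / s) ^ (d - 1) + 1) := by
  have hs0 : 0 < s := by linarith
  have hC10 : 0 < C₁ := by linarith
  have hR1 : R ≤ (C₄ + 1) * s := by nlinarith
  have h1 : R / (s / (2 * C₁)) + 2 ≤ 2 * C₁ * (C₄ + 1) + 2 := by
    have : R / (s / (2 * C₁)) ≤ 2 * C₁ * (C₄ + 1) := by
      rw [div_le_iff₀ (by positivity)]
      have : 2 * C₁ * (C₄ + 1) * (s / (2 * C₁)) = (C₄ + 1) * s := by field_simp
      rw [this]
      exact hR1
    linarith
  set t : ℝ := W / s with ht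
  have ht0 : 0 ≤ t := by positivity
  have h2 : (W + 2 * R) / (s / (2 * C₁)) + 2 ≤ (4 * C₁ * (C₄ + 2)) * (t + 1) := by
    have h3 : (W + 2 * R) / (s / (2 * C₁)) ≤ 2 * C₁ * t + 4 * C₁ * (C₄ + 1) := by
      rw [div_le_iff₀ (by positivity)]
      have : (2 * C₁ * t + 4 * C₁ * (C₄ + 1)) * (s / (2 * C₁)) = W + 2 * ((C₄ + 1) * s) := by
        rw [ht]
        field_simp
        ring
      rw [this]
      linarith
    have h4 : 0 ≤ C₁ * C₄ := by positivity
    have h5 : 0 ≤ C₁ * C₄ * t := by positivity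
    have h6 : 0 ≤ C₁ * t := by positivity
    nlinarith
  have h3 : (t + 1) ^ (d - 1) ≤ 2 ^ (d - 1) * (t ^ (d - 1) + 1) := by
    have h4 : (t + 1) ^ (d - 1) ≤ (2 * max t 1) ^ (d - 1) := by
      apply pow_le_pow_left₀ (by positivity)
      have := le_max_left t 1
      have := le_max_right t 1
      linarith
    refine h4.trans ?_
    rw [mul_pow]
    apply mul_le_mul_of_nonneg_left _ (by positivity)
    rcases max_cases t 1 with ⟨h, _⟩ | ⟨h, _⟩ <;> rw [h]
    · linarith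
    · rw [one_pow]
      have : 0 ≤ t ^ (d - 1) := by positivity
      linarith
  have h4 : ((W + 2 * R) / (s / (2 * C₁)) + 2) ^ (d - 1) ≤
      (4 * C₁ * (C₄ + 2)) ^ (d - 1) * (2 ^ (d - 1) * (t ^ (d - 1) + 1)) := by
    refine (pow_le_pow_left₀ (by positivity) h2 _).trans ?_
    rw [mul_pow]
    exact mul_le_mul_of_nonneg_left h3 (by positivity)
  have h5 : (R / (s / (2 * C₁)) + 2) * ((W + 2 * R) / (s / (2 * C₁)) + 2) ^ (d - 1) ≤
      (2 * C₁ * (C₄ + 1) + 2) * ((4 * C₁ * (C₄ + 2)) ^ (d - 1) * (2 ^ (d - 1) * (t ^ (d - 1) + 1))) :=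
    mul_le_mul h1 h4 (by positivity) (by positivity)
  have h6 := mul_le_mul_of_nonneg_left h5 (by positivity : (0:ℝ) ≤ 2 * (d : ℝ))
  refine h6.trans ?_
  have h7 : 0 ≤ t ^ (d - 1) + 1 := by positivity
  nlinarith

theorem t_LAT : Pool.Agent.H525.SH.S_LAT := by
  intro K _ _ ι _ b
  have hc : Fintype.card ι = Module.finrank ℚ K := by
    rw [← RingOfIntegers.rank K, Module.finrank_eq_card_basis b]
  have hd : 1 ≤ Fintype.card ι := by
    rw [hc]; exact Module.finrank_pos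
  have hbl : LinearIndependent ℤ (b : ι → 𝓞 K) := b.linearIndependent
  obtain ⟨C₁, hC₁, hemb⟩ := emb_bound (K := K) (b : ι → 𝓞 K)
  obtain ⟨C₂, hC₂, hcoord⟩ := Pool.Agent.H525.ISO.Coord.t_COORD K ι b
  set C₃ : ℝ := ∑ σ : K →ₐ[ℚ] ℂ, ∑ i, ‖σ (b i : K)‖ with hC₃
  have hC₃0 : 0 ≤ C₃ := Finset.sum_nonneg (fun _ _ => Finset.sum_nonneg (fun _ _ => norm_nonneg _))
  have hC₂0 : 0 ≤ C₂ := by linarith
  have hC₁0 : 0 < C₁ := by linarith
  set C₄ : ℝ := C₂ * (C₁ * C₃) with hC₄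
  have hC₄0 : 0 ≤ C₄ := by positivity
  refine ⟨2 * (Fintype.card ι : ℝ) * ((2 * C₁ * (C₄ + 1) + 2) *
    (4 * C₁ * (C₄ + 2)) ^ (Fintype.card ι - 1)) * 2 ^ (Fintype.card ι - 1) + 1, ?_, ?_⟩
  · have : 0 ≤ 2 * (Fintype.card ι : ℝ) * ((2 * C₁ * (C₄ + 1) + 2) *
      (4 * C₁ * (C₄ + 2)) ^ (Fintype.card ι - 1)) * 2 ^ (Fintype.card ι - 1) := by positivity
    linarith
  intro I hI s hs hsI a W
  have hfin : Finite (𝓞 K ⧸ I) := Ideal.finiteQuotientOfFreeOfNeBot I hI
  have : Fintype (𝓞 K ⧸ I) := Fintype.ofFinite _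
  have hcard : (Fintype.card (𝓞 K ⧸ I) : ℝ) = Ideal.absNorm I := by
    rw [Ideal.absNorm_apply, Submodule.cardQuot_apply, Nat.card_eq_fintype_card]
  have hN1 : 1 ≤ Ideal.absNorm I := by
    have : Ideal.absNorm I ≠ 0 := by rwa [Ne, Ideal.absNorm_eq_zero_iff]
    omega
  have hs1 : 1 ≤ s := by
    by_contra hcon
    push Not at hcon
    have h1 : s ^ Fintype.card ι < 1 := pow_lt_one₀ hs.le hcon (by omega)
    rw [hsI] at h1
    have h2 : (1:ℝ) ≤ Ideal.absNorm I := by exact_mod_cast hN1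
    linarith
  set π : (ι → ℤ) →+ (𝓞 K ⧸ I) :=
    (Ideal.Quotient.mk I).toAddMonoidHom.comp (th (b : ι → 𝓞 K)).toAddMonoidHom with hπ
  have hπ0 : ∀ w, π w = 0 ↔ th (b : ι → 𝓞 K) w ∈ I := fun w => Ideal.Quotient.eq_zero_iff_mem
  have hsurj : ∀ z : 𝓞 K, ∃ x, th (b : ι → 𝓞 K) x = z := by
    intro z
    refine ⟨b.equivFun z, ?_⟩
    rw [th_apply]
    exact b.sum_equivFun z
  -- the short vector
  obtain ⟨x0, hx0, hx0I, hx0s⟩ := short π hd s hs (by rw [hsI, hcard])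
  set γ : 𝓞 K := th (b : ι → 𝓞 K) x0 with hγ
  have hγ0 : γ ≠ 0 := fun h => hx0 (th_inj hbl (by rw [map_zero]; exact h))
  have hγI : γ ∈ I := (hπ0 x0).1 hx0I
  -- representatives
  have hRep : ∀ g : 𝓞 K ⧸ I, ∃ v : ι → ℤ, (∀ i, |v i| ≤ (⌈C₄ * s⌉₊ : ℤ)) ∧ π v = g := by
    intro g
    obtain ⟨z, hz⟩ := Ideal.Quotient.mk_surjective g
    obtain ⟨q, c, hc01, hq⟩ := rep b γ z hγ0
    obtain ⟨v, hv⟩ := hsurj (z - γ * q)
    refine ⟨v, fun i => ?_, ?_⟩
    · have h1 : ∀ σ : K →ₐ[ℚ] ℂ, ‖σ ((∑ j, v j • b j : 𝓞 K) : K)‖ ≤ (C₁ * s) * C₃ := by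
        intro σ
        rw [← th_apply (b : ι → 𝓞 K) v, hv, hq σ, norm_mul]
        refine mul_le_mul (hemb σ x0 s hs.le hx0s) ?_ (norm_nonneg _) (by positivity)
        refine (norm_sum_le _ _).trans ?_
        have h2 : ∑ i, ‖(c i : ℂ) * σ (b i : K)‖ ≤ ∑ i, ‖σ (b i : K)‖ := by
          refine Finset.sum_le_sum fun i _ => ?_
          rw [norm_mul, Complex.norm_real, Real.norm_eq_abs, abs_of_nonneg (hc01 i).1]
          exact mul_le_of_le_one_left (norm_nonneg _) (hc01 i).2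
        refine h2.trans ?_
        exact Finset.single_le_sum (f := fun σ : K →ₐ[ℚ] ℂ => ∑ i, ‖σ (b i : K)‖)
          (fun _ _ => Finset.sum_nonneg (fun _ _ => norm_nonneg _)) (mem_univ σ)
      have h2 := hcoord v _ h1 i
      have h3 : |((v i : ℤ) : ℝ)| ≤ (⌈C₄ * s⌉₊ : ℝ) := by
        refine h2.trans (le_trans (le_of_eq ?_) (Nat.le_ceil _))
        rw [hC₄]; ring
      exact_mod_cast h3
    · have h1 : π v = Ideal.Quotient.mk I (th (b : ι → 𝓞 K) v) := rfl
      rw [h1, hv, map_sub, map_mul, Ideal.Quotient.eq_zero_iff_mem.2 hγI, zero_mul, sub_zero, hz]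
  -- separation
  have hsep : ∀ w : ι → ℤ, w ≠ 0 → π w = 0 → ∃ i, s / (2 * C₁) ≤ |((w i : ℤ) : ℝ)| := by
    intro w hw hw0
    by_contra hcon
    push Not at hcon
    have h1 : th (b : ι → 𝓞 K) w ≠ 0 := fun h => hw (th_inj hbl (by rw [map_zero]; exact h))
    have h2 := absNorm_le_of_mem ((hπ0 w).1 hw0) h1
    have h3 := norm_le hc hemb w (s / (2 * C₁)) (by positivity) (fun i => (hcon i).le)
    rw [← hsI] at h2
    have h4 : C₁ * (s / (2 * C₁)) = s / 2 := by field_simp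
    rw [h4] at h3
    have h5 : (s / 2) ^ Fintype.card ι < s ^ Fintype.card ι :=
      pow_lt_pow_left₀ (by linarith) (by positivity) (by omega)
    linarith
  have hmain := count_avg π ⌈C₄ * s⌉₊ hRep (s / (2 * C₁)) (by positivity) hsep a W
  have hfilt : (Box a W).filter (fun w => π w = 0) =
      (Box a W).filter (fun x => (∑ i, x i • b i) ∈ I) := by
    refine Finset.filter_congr fun w _ => ?_
    rw [hπ0, th_apply]
  rw [hfilt, hcard, ← hsI, ← div_pow] at hmain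
  refine hmain.trans ?_
  refine arith (Fintype.card ι) hd C₁ C₄ s W (⌈C₄ * s⌉₊ : ℝ) hC₁ hC₄0 hs1 (Nat.cast_nonneg _)
    (Nat.cast_nonneg _) (Nat.ceil_lt_add_one (by positivity)).le

end main

end Pool.Agent.H525.SH.X
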