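import Pool.Agent.H525.SH.Stm

/-! # SQ: norms divisible by the square of a prime number (for MP_3998cf_nt, helper525) -/

set_option autoImplicit false

namespace Pool.Agent.H525.SH.X

open Finset NumberField Filter
open Pool.Agent.H525.SH
open Pool.Agent.H525.NF (Box)

open scoped Classical

variable {K : Type} [Field K] [NumberField K]

/-- A nonzero prime ideal contains a prime number. -/
theorem below {P : Ideal (𝓞 K)} (h1 : P.IsPrime) (h2 : P ≠ ⊥) :
    ∃ p : ℕ, p.Prime ∧ ((p : ℕ) : 𝓞 K) ∈ P := by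
  have h3 : Ideal.absNorm P ≠ 0 := by
    rw [Ne, Ideal.absNorm_eq_zero_iff]
    exact h2
  have h4 : ((Ideal.absNorm P : ℕ) : 𝓞 K) ∈ P := Ideal.absNorm_mem P
  have key : ∀ n : ℕ, n ≠ 0 → ((n : ℕ) : 𝓞 K) ∈ P → ∃ p : ℕ, p.Prime ∧ ((p : ℕ) : 𝓞 K) ∈ P := by
    intro n
    induction n using Nat.recOnMul with
    | zero => intro h; exact absurd rfl h
    | one =>
      intro _ h
      exfalso
      apply h1.ne_top
      rw [Ideal.eq_top_iff_one]
      simpa using h
    | prime p hp =>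
      intro _ h
      exact ⟨p, hp, h⟩
    | mul a b iha ihb =>
      intro h hm
      rw [Nat.cast_mul] at hm
      rcases h1.mem_or_mem hm with h5 | h5
      · exact iha (by rintro rfl; simp at h) h5
      · exact ihb (by rintro rfl; simp at h) h5
  exact key _ h3 h4

/-- An ideal with a norm divisible by `p` is divisible by a prime ideal above `p`. -/
theorem exists_prime_dvd (hP : S_PAF) {p : ℕ} (hp : p.Prime) {J : Ideal (𝓞 K)} (hJ : J ≠ ⊥)
    (h : p ∣ Ideal.absNorm J) : ∃ Q ∈ PA K p, J ≤ Q := by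
  have h1 : Ideal.absNorm J =
      ((UniqueFactorizationMonoid.normalizedFactors J).map Ideal.absNorm).prod := by
    conv_lhs => rw [← Ideal.prod_normalizedFactors_eq_self hJ]
    rw [map_multiset_prod]
  rw [h1] at h
  obtain ⟨Q, hQ, hpQ⟩ := hp.prime.exists_mem_multiset_map_dvd h
  have hQp : Prime Q := UniqueFactorizationMonoid.prime_of_normalized_factor Q hQ
  have hQ0 : Q ≠ ⊥ := hQp.ne_zero
  have hQI : Q.IsPrime := Ideal.isPrime_of_prime hQp
  obtain ⟨l, hl, hlQ⟩ := below hQI hQ0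
  have h2 : Q ∈ PA K l := ((hP K l hl).1 Q).2 ⟨hQI, hlQ⟩
  obtain ⟨f, _, hf⟩ := (hP K l hl).2.1 Q h2
  rw [hf] at hpQ
  have h3 : p = l := (Nat.prime_dvd_prime_iff_eq hp hl).1 (hp.dvd_of_dvd_pow hpQ)
  refine ⟨Q, ?_, ?_⟩
  · rw [h3]
    exact h2
  · exact Ideal.le_of_dvd (UniqueFactorizationMonoid.dvd_of_mem_normalizedFactors hQ)

/-- The ideals which catch the elements with norms divisible by `p ^ 2`. -/
noncomputable def BI (K : Type) [Field K] [NumberField K] (p : ℕ) : Finset (Ideal (𝓞 K)) :=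
  (PA K p).filter (fun P => Ideal.absNorm P ≠ p) ∪
    ((PA K p) ×ˢ (PA K p)).image (fun q => q.1 * q.2)

theorem card_BI (hP : S_PAF) {p : ℕ} (hp : p.Prime) :
    (BI K p).card ≤ Module.finrank ℚ K + Module.finrank ℚ K ^ 2 := by
  have h1 := (hP K p hp).2.2.1
  unfold BI
  refine (Finset.card_union_le _ _).trans ?_
  have h2 : ((PA K p).filter (fun P => Ideal.absNorm P ≠ p)).card ≤ (PA K p).card :=
    Finset.card_filter_le _ _
  have h3 : (((PA K p) ×ˢ (PA K p)).image (fun q => q.1 * q.2)).card ≤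
      (PA K p).card * (PA K p).card := by
    refine Finset.card_image_le.trans ?_
    rw [Finset.card_product]
  have h4 : (PA K p).card * (PA K p).card ≤ Module.finrank ℚ K ^ 2 := by
    rw [sq]
    exact Nat.mul_le_mul h1 h1
  omega

theorem PA_ne_bot (hP : S_PAF) {p : ℕ} (hp : p.Prime) {P : Ideal (𝓞 K)} (h : P ∈ PA K p) :
    P ≠ ⊥ := by
  obtain ⟨f, _, hf⟩ := (hP K p hp).2.1 P h
  intro h0
  rw [h0, Ideal.absNorm_bot] at hf
  exact (pow_ne_zero f hp.ne_zero) hf.symm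

theorem BI_spec (hP : S_PAF) {p : ℕ} (hp : p.Prime) {I : Ideal (𝓞 K)} (h : I ∈ BI K p) :
    I ≠ ⊥ ∧ p ^ 2 ≤ Ideal.absNorm I := by
  unfold BI at h
  rw [mem_union, mem_filter, mem_image] at h
  rcases h with ⟨h1, h2⟩ | ⟨⟨P, Q⟩, h1, rfl⟩
  · refine ⟨PA_ne_bot hP hp h1, ?_⟩
    obtain ⟨f, hf1, hf⟩ := (hP K p hp).2.1 I h1
    rw [hf]
    apply Nat.pow_le_pow_right hp.pos
    rcases Nat.lt_or_ge f 2 with h3 | h3
    · exfalso
      have h4 : f = 1 := by omega
      rw [hf, h4, pow_one] at h2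
      exact h2 rfl
    · exact h3
  · rw [mem_product] at h1
    refine ⟨mul_ne_zero (PA_ne_bot hP hp h1.1) (PA_ne_bot hP hp h1.2), ?_⟩
    obtain ⟨f, hf1, hf⟩ := (hP K p hp).2.1 P h1.1
    obtain ⟨g, hg1, hg⟩ := (hP K p hp).2.1 Q h1.2
    rw [map_mul, hf, hg, ← pow_add]
    exact Nat.pow_le_pow_right hp.pos (by omega)

theorem mem_BI (hP : S_PAF) {p : ℕ} (hp : p.Prime) {z : 𝓞 K} (hz : z ≠ 0)
    (h : p ^ 2 ∣ (Algebra.norm ℤ z).natAbs) : ∃ I ∈ BI K p, z ∈ I := by
  obtain ⟨P, hPm, hzP⟩ := ((hP K p hp).2.2.2 z).1 (dvd_trans (dvd_pow_self p two_ne_zero) h)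
  by_cases h1 : Ideal.absNorm P = p
  · have h2 : P ∣ Ideal.span {z} := by
      rw [Ideal.dvd_span_singleton]
      exact hzP
    obtain ⟨J, hJ⟩ := h2
    have h3 : Ideal.span {z} ≠ ⊥ := by
      rw [Ne, Ideal.span_singleton_eq_bot]
      exact hz
    have h4 : J ≠ ⊥ := by
      rintro rfl
      rw [Ideal.mul_bot] at hJ
      exact h3 hJ
    have h5 : (Algebra.norm ℤ z).natAbs = p * Ideal.absNorm J := by
      rw [← Ideal.absNorm_span_singleton, hJ, map_mul, h1]
    rw [h5, sq] at h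
    have h6 : p ∣ Ideal.absNorm J := Nat.dvd_of_mul_dvd_mul_left hp.pos h
    obtain ⟨Q, hQ, hJQ⟩ := exists_prime_dvd hP hp h4 h6
    refine ⟨P * Q, ?_, ?_⟩
    · unfold BI
      rw [mem_union, mem_image]
      exact Or.inr ⟨(P, Q), mem_product.2 ⟨hPm, hQ⟩, rfl⟩
    · have h7 : z ∈ Ideal.span {z} := Ideal.mem_span_singleton_self z
      rw [hJ] at h7
      exact Ideal.mul_mono_right hJQ h7
  · refine ⟨P, ?_, hzP⟩
    unfold BI
    rw [mem_union, mem_filter]
    exact Or.inl ⟨hPm, h1⟩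

theorem t_SQ : S_PAF → S_LAT → S_SQ := by
  intro hP hL K _ _ ι _ b
  obtain ⟨C, hC, hLat⟩ := hL K ι b
  set D : ℕ := Module.finrank ℚ K with hD
  have hcard : Fintype.card ι = D := by
    rw [hD, ← RingOfIntegers.rank K, Module.finrank_eq_card_basis b]
  have hDpos : 0 < D := Module.finrank_pos
  refine ⟨1 + (D + D ^ 2 : ℕ) * (1 + 2 * C), ?_, ?_⟩
  · have : (0 : ℝ) ≤ (D + D ^ 2 : ℕ) * (1 + 2 * C) := by positivity
    linarith
  intro p hp a W
  have hpp : (0 : ℝ) < (p : ℝ) ^ 2 := by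
    have := hp.pos
    positivity
  set M : ℝ := (W : ℝ) ^ Fintype.card ι / (p : ℝ) ^ 2 with hM
  have hM0 : 0 ≤ M := by positivity
  -- one ideal
  have hone : ∀ I ∈ BI K p, (((Box a W).filter (fun x => (∑ i, x i • b i) ∈ I)).card : ℝ) ≤
      (1 + 2 * C) * (M + 1) := by
    intro I hI
    obtain ⟨hI0, hIp⟩ := BI_spec hP hp hI
    have hn0 : 0 < Ideal.absNorm I := Nat.pos_of_ne_zero (by
      rw [Ne, Ideal.absNorm_eq_zero_iff]
      exact hI0)
    have hn0' : (0 : ℝ) < Ideal.absNorm I := by exact_mod_cast hn0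
    set s : ℝ := (Ideal.absNorm I : ℝ) ^ ((1 : ℝ) / (Fintype.card ι : ℝ)) with hs
    have hspos : 0 < s := Real.rpow_pos_of_pos hn0' _
    have hsd : s ^ Fintype.card ι = Ideal.absNorm I := by
      rw [hs, ← Real.rpow_natCast, ← Real.rpow_mul hn0'.le]
      rw [one_div_mul_cancel, Real.rpow_one]
      rw [hcard]
      exact_mod_cast hDpos.ne'
    have h1 := hLat I hI0 s hspos hsd a W
    have h2 := (abs_le.1 h1).2
    set x : ℝ := (W : ℝ) / s with hx
    have hx0 : 0 ≤ x := by positivity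
    have h3 : x ^ Fintype.card ι ≤ M := by
      rw [hx, div_pow, hsd, hM]
      apply div_le_div_of_nonneg_left (by positivity) hpp
      exact_mod_cast hIp
    have h4 : x ^ (Fintype.card ι - 1) ≤ x ^ Fintype.card ι + 1 := by
      rcases le_total x 1 with h5 | h5
      · have h6 : x ^ (Fintype.card ι - 1) ≤ 1 := pow_le_one₀ hx0 h5
        have h7 : 0 ≤ x ^ Fintype.card ι := by positivity
        linarith
      · have h6 : x ^ (Fintype.card ι - 1) ≤ x ^ Fintype.card ι :=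
          pow_le_pow_right₀ h5 (Nat.sub_le _ _)
        linarith
    have h5 : C * (x ^ (Fintype.card ι - 1) + 1) ≤ C * (M + 2) :=
      mul_le_mul_of_nonneg_left (by linarith) (by linarith)
    nlinarith
  -- the union
  set F : Finset (ι → ℤ) := (Box a W).filter
    (fun x => p ^ 2 ∣ (Algebra.norm ℤ (∑ i, x i • b i)).natAbs) with hF
  have hsub : F ⊆ {0} ∪ (BI K p).biUnion
      (fun I => (Box a W).filter (fun x => (∑ i, x i • b i) ∈ I)) := by
    intro x hx
    rw [hF, mem_filter] at hx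
    rw [mem_union, mem_singleton, mem_biUnion]
    by_cases h0 : (∑ i, x i • b i) = 0
    · left
      funext i
      exact Fintype.linearIndependent_iff.1 b.linearIndependent x h0 i
    · right
      obtain ⟨I, hI, hzI⟩ := mem_BI hP hp h0 hx.2
      exact ⟨I, hI, mem_filter.2 ⟨hx.1, hzI⟩⟩
  have h1 : F.card ≤ 1 + ∑ I ∈ BI K p,
      ((Box a W).filter (fun x => (∑ i, x i • b i) ∈ I)).card := by
    refine (Finset.card_le_card hsub).trans ((Finset.card_union_le _ _).trans ?_)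
    rw [Finset.card_singleton]
    exact Nat.add_le_add_left Finset.card_biUnion_le 1
  have h2 : (F.card : ℝ) ≤ 1 + ∑ I ∈ BI K p,
      (((Box a W).filter (fun x => (∑ i, x i • b i) ∈ I)).card : ℝ) := by
    exact_mod_cast h1
  have h3 : ∑ I ∈ BI K p,
      (((Box a W).filter (fun x => (∑ i, x i • b i) ∈ I)).card : ℝ) ≤
      (D + D ^ 2 : ℕ) * ((1 + 2 * C) * (M + 1)) := by
    refine (Finset.sum_le_sum hone).trans ?_
    rw [Finset.sum_const, nsmul_eq_mul]
    apply mul_le_mul_of_nonneg_right _ (by positivity)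
    exact_mod_cast card_BI hP hp
  have h4 : (1 + (D + D ^ 2 : ℕ) * (1 + 2 * C)) * (M + 1) =
      (M + 1) + (D + D ^ 2 : ℕ) * ((1 + 2 * C) * (M + 1)) := by ring
  rw [h4]
  linarith

end Pool.Agent.H525.SH.X
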