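import Pool.Agent.H525.ISO.Unit

set_option autoImplicit false
set_option linter.unusedSectionVars false

/-! # The number of units in a box -/

namespace Pool.Agent.H525.SH

open Finset NumberField Filter
open Pool.Agent.H525.ISO.Unit (absNorm_eq small_finite lower card_emb)

open scoped Classical

theorem units_card0 (K : Type) [Field K] [NumberField K] : ∃ C : ℝ, 1 ≤ C ∧
    ∀ (S : Finset (𝓞 K)) (I : Ideal (𝓞 K)) (B : ℝ), 1 ≤ B → I ≠ ⊥ →
    (∀ x ∈ S, Ideal.span {x} = I ∧ ∀ σ : K →ₐ[ℚ] ℂ, ‖σ (x : K)‖ ≤ B) → Ideal.absNorm I = 1 →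
    (S.card : ℝ) ≤ C * (Module.finrank ℚ K * Real.log B + 2) ^ Module.finrank ℚ K := by
  set d := Module.finrank ℚ K with hd
  have hd0 : 0 < d := Module.finrank_pos
  set T : Finset (𝓞 K) := (small_finite (K := K)).toFinset with hT
  set C : ℝ := T.card + 1 with hC
  refine ⟨C, ?_, ?_⟩
  · have : (0 : ℝ) ≤ T.card := Nat.cast_nonneg _
    linarith
  intro S I B hB hI hS hI1
  have hB0 : 0 < B := by linarith
  rcases S.eq_empty_or_nonempty with rfl | ⟨x₀, hx₀⟩
  · simp only [Finset.card_empty, Nat.cast_zero]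
    have h1 : 0 ≤ Real.log B := Real.log_nonneg hB
    positivity
  have hN0 : 0 < (Ideal.absNorm I : ℝ) := by
    have : Ideal.absNorm I ≠ 0 := by
      rw [Ne, Ideal.absNorm_eq_zero_iff]
      exact hI
    exact_mod_cast Nat.pos_of_ne_zero this
  have hlow : ∀ x ∈ S, ∀ σ : K →ₐ[ℚ] ℂ,
      (Ideal.absNorm I : ℝ) ≤ ‖σ (x : K)‖ * B ^ (d - 1) := fun x hx σ =>
    lower hB (hS x hx).1 (hS x hx).2 σ
  have hpos : ∀ x ∈ S, ∀ σ : K →ₐ[ℚ] ℂ, 0 < ‖σ (x : K)‖ := by
    intro x hx σ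
    by_contra hcon
    have h0 : ‖σ (x : K)‖ = 0 := le_antisymm (not_lt.1 hcon) (norm_nonneg _)
    have := hlow x hx σ
    rw [h0, zero_mul] at this
    linarith
  set D : ℝ := Real.log (B ^ d / Ideal.absNorm I) with hD
  have hBd : B ^ d = B * B ^ (d - 1) := by
    rw [← pow_succ']
    congr 1
    omega
  obtain ⟨σ₀⟩ : Nonempty (K →ₐ[ℚ] ℂ) := by
    rw [← Fintype.card_pos_iff, card_emb]
    exact hd0
  have hNB : (Ideal.absNorm I : ℝ) ≤ B ^ d := by
    rw [hBd]
    refine (hlow x₀ hx₀ σ₀).trans ?_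
    exact mul_le_mul_of_nonneg_right ((hS x₀ hx₀).2 σ₀) (by positivity)
  have hD0 : 0 ≤ D := Real.log_nonneg (by rwa [le_div_iff₀ hN0, one_mul])
  -- the range of the logarithms
  set lo : ℝ := Real.log (Ideal.absNorm I) - Real.log (B ^ (d - 1)) with hlo
  have hhi : Real.log B = lo + D := by
    rw [hlo, hD, Real.log_div (by positivity) hN0.ne', hBd, Real.log_mul hB0.ne' (by positivity)]
    ring
  have hlog : ∀ x ∈ S, ∀ σ : K →ₐ[ℚ] ℂ,
      lo ≤ Real.log ‖σ (x : K)‖ ∧ Real.log ‖σ (x : K)‖ ≤ lo + D := by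
    intro x hx σ
    have h1 := hpos x hx σ
    constructor
    · have h2 := Real.log_le_log hN0 (hlow x hx σ)
      rw [Real.log_mul h1.ne' (by positivity)] at h2
      linarith
    · rw [← hhi]
      exact Real.log_le_log h1 ((hS x hx).2 σ)
  set f : 𝓞 K → (K →ₐ[ℚ] ℂ) → ℤ := fun x σ => ⌊Real.log ‖σ (x : K)‖⌋ with hfdef
  set R : Finset ((K →ₐ[ℚ] ℂ) → ℤ) := Fintype.piFinset (fun _ => Finset.Icc ⌊lo⌋ ⌊lo + D⌋) with hR
  have hmap : ∀ x ∈ S, f x ∈ R := by
    intro x hx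
    rw [hR, Fintype.mem_piFinset]
    intro σ
    rw [Finset.mem_Icc]
    exact ⟨Int.floor_le_floor (hlog x hx σ).1, Int.floor_le_floor (hlog x hx σ).2⟩
  have hRc : (R.card : ℝ) ≤ (D + 2) ^ d := by
    rw [hR, Fintype.card_piFinset, Finset.prod_const, Finset.card_univ, card_emb, ← hd, Int.card_Icc]
    push_cast
    refine pow_le_pow_left₀ (Nat.cast_nonneg _) ?_ d
    have h1 : ⌊lo⌋ ≤ ⌊lo + D⌋ := Int.floor_le_floor (by linarith)
    have h2 : (((⌊lo + D⌋ + 1 - ⌊lo⌋).toNat : ℤ) : ℝ) = ((⌊lo + D⌋ + 1 - ⌊lo⌋ : ℤ) : ℝ) := by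
      congr 1
      exact Int.toNat_of_nonneg (by omega)
    rw [Int.cast_natCast] at h2
    rw [h2]
    push_cast
    have h3 := Int.floor_le (lo + D)
    have h4 := Int.lt_floor_add_one lo
    linarith
  have hfib : ∀ y ∈ R, (S.filter (fun x => f x = y)).card ≤ T.card := by
    intro y _
    rcases (S.filter (fun x => f x = y)).eq_empty_or_nonempty with h0 | ⟨x, hx⟩
    · rw [h0]
      simp
    rw [Finset.mem_filter] at hx
    -- every element of the fibre is a multiple of x by an element of T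
    have hmul : ∀ z ∈ S.filter (fun x => f x = y), ∃ u ∈ T, z = x * u := by
      intro z hz
      rw [Finset.mem_filter] at hz
      have h1 : Ideal.span {z} = Ideal.span {x} := by rw [(hS z hz.1).1, (hS x hx.1).1]
      have h2 : x ∣ z := by
        rw [← Ideal.span_singleton_le_span_singleton, h1]
      obtain ⟨u, hu⟩ := h2
      refine ⟨u, ?_, hu⟩
      rw [hT, Set.Finite.mem_toFinset]
      intro σ
      have h3 := hpos x hx.1 σ
      have h4 := hpos z hz.1 σ
      have h5 : ‖σ (z : K)‖ = ‖σ (x : K)‖ * ‖σ (u : K)‖ := by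
        rw [hu]
        simp
      have h6 : Real.log ‖σ (z : K)‖ ≤ Real.log ‖σ (x : K)‖ + 1 := by
        have h7 : ⌊Real.log ‖σ (z : K)‖⌋ = ⌊Real.log ‖σ (x : K)‖⌋ := by
          have := congrFun (hz.2.trans hx.2.symm) σ
          exact this
        have h8 := Int.lt_floor_add_one (Real.log ‖σ (z : K)‖)
        have h9 := Int.floor_le (Real.log ‖σ (x : K)‖)
        rw [h7] at h8
        linarith
      have h10 : ‖σ (z : K)‖ ≤ ‖σ (x : K)‖ * Real.exp 1 := by
        calc ‖σ (z : K)‖ = Real.exp (Real.log ‖σ (z : K)‖) := (Real.exp_log h4).symm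
          _ ≤ Real.exp (Real.log ‖σ (x : K)‖ + 1) := Real.exp_le_exp.2 h6
          _ = ‖σ (x : K)‖ * Real.exp 1 := by rw [Real.exp_add, Real.exp_log h3]
      rw [h5] at h10
      exact le_of_mul_le_mul_left h10 h3
    choose! g hg1 hg2 using hmul
    refine Finset.card_le_card_of_injOn g hg1 ?_
    intro a ha b hb hab
    rw [hg2 a ha, hg2 b hb, hab]
  have hcard : S.card ≤ T.card * R.card := by
    exact Finset.card_le_mul_card_image_of_maps_to hmap _ hfib

  have h1 : (S.card : ℝ) ≤ T.card * R.card := by exact_mod_cast hcard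
  have h2 : D = d * Real.log B := by
    rw [hD, hI1, Nat.cast_one, div_one, Real.log_pow]
  rw [h2] at hRc
  refine h1.trans ((mul_le_mul_of_nonneg_left hRc (Nat.cast_nonneg _)).trans ?_)
  refine mul_le_mul_of_nonneg_right (by rw [hC]; linarith) ?_
  have h3 : 0 ≤ Real.log B := Real.log_nonneg hB
  positivity

theorem units_card (K : Type) [Field K] [NumberField K] : ∃ C : ℝ, 1 ≤ C ∧
    ∀ (S : Finset (𝓞 K)) (B : ℝ), 1 ≤ B →
    (∀ x ∈ S, IsUnit x ∧ ∀ σ : K →ₐ[ℚ] ℂ, ‖σ (x : K)‖ ≤ B) →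
    (S.card : ℝ) ≤ C * (Module.finrank ℚ K * Real.log B + 2) ^ Module.finrank ℚ K := by
  obtain ⟨C, hC, h⟩ := units_card0 K
  refine ⟨C, hC, fun S B hB hS => h S ⊤ B hB top_ne_bot (fun x hx => ⟨?_, (hS x hx).2⟩) Ideal.absNorm_top⟩
  exact Ideal.span_singleton_eq_top.2 (hS x hx).1

end Pool.Agent.H525.SH
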