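import Pool.Agent.H525.SH.Main
import Pool.Agent.H525.SH.Units

set_option autoImplicit false

/-! # Almost primes in short cubes of number fields: the units are left out -/

namespace Pool.Agent.H525.SH

open Finset NumberField Filter

open scoped Classical

theorem fin (K : Type) [Field K] [NumberField K] (r : ℕ) (hr : 2 ≤ r) (θ : ℝ)
    (h1 : 4 / (3 * r + 1) < θ) (h2 : θ ≤ 1) :
    ∃ κ : ℝ, 0 < κ ∧ ∃ T₀ : ℝ, ∀ T : ℝ, T₀ ≤ T → ∀ z₀ : 𝓞 K,
      (∀ σ : K →ₐ[ℚ] ℂ, ‖σ (z₀ : K)‖ ≤ T) →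
      ∃ S : Finset (𝓞 K), κ * (T ^ θ) ^ Module.finrank ℚ K / Real.log T ≤ (S.card : ℝ) ∧
        ∀ z ∈ S, (∀ σ : K →ₐ[ℚ] ℂ, ‖σ ((z - z₀ : 𝓞 K) : K)‖ ≤ T ^ θ) ∧ z ≠ 0 ∧ ¬ IsUnit z ∧
          (Algebra.norm ℤ z).natAbs.primeFactorsList.length ≤ r ∧
          ∀ p : ℕ, p.Prime → p ∣ (Algebra.norm ℤ z).natAbs →
            (T ^ θ) ^ ((Module.finrank ℚ K : ℝ) / 5) ≤ (p : ℝ) := by
  have hθ0 : 0 < θ := lt_trans (by positivity) h1
  obtain ⟨κ, hκ, T₀, h⟩ := main K r hr θ h1 h2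
  obtain ⟨C, hC, hU⟩ := units_card K
  set d := Module.finrank ℚ K with hd
  have hd0 : 0 < d := Module.finrank_pos
  have hdr : (1:ℝ) ≤ d := by exact_mod_cast hd0
  have hlo := isLittleO_log_rpow_rpow_atTop ((d : ℝ) + 1) hθ0
  have hc0 : 0 < κ / (2 * (C * (2 * d + 2) ^ d)) := by positivity
  have hlo2 := hlo.bound hc0
  obtain ⟨T₁, hT₁⟩ := eventually_atTop.1 (hlo2.and (eventually_ge_atTop (3 : ℝ)))
  refine ⟨κ / 2, by positivity, max T₀ T₁, ?_⟩
  intro T hT z₀ hz₀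
  obtain ⟨S, hS1, hS2⟩ := h T ((le_max_left _ _).trans hT) z₀ hz₀
  obtain ⟨t1, t2⟩ := hT₁ T ((le_max_right _ _).trans hT)
  have hT0 : 0 < T := by linarith
  have hlT : 1 < Real.log T := by
    rw [Real.lt_log_iff_exp_lt hT0]
    linarith [Real.exp_one_lt_d9]
  have hH1 : 1 ≤ T ^ θ := Real.one_le_rpow (by linarith) hθ0.le
  have hHT : T ^ θ ≤ T := by
    calc T ^ θ ≤ T ^ (1:ℝ) := Real.rpow_le_rpow_of_exponent_le (by linarith) h2
      _ = T := Real.rpow_one _
  refine ⟨S.filter (fun z => ¬ IsUnit z), ?_, ?_⟩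
  · have e1 : (((S.filter (fun z => IsUnit z)).card : ℕ) : ℝ) ≤
        C * (d * Real.log (2 * T) + 2) ^ d := by
      apply hU _ _ (by linarith)
      intro x hx
      rw [mem_filter] at hx
      refine ⟨hx.2, fun σ => ?_⟩
      have e2 : σ (x : K) = σ ((x - z₀ : 𝓞 K) : K) + σ (z₀ : K) := by
        rw [← map_add]
        congr 1
        push_cast
        ring
      rw [e2]
      refine (norm_add_le _ _).trans ?_
      linarith [(hS2 x hx.1).1 σ, hz₀ σ]
    have e3 : C * (d * Real.log (2 * T) + 2) ^ d ≤ κ / 2 * (T ^ θ) ^ d / Real.log T := by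
      have f1 : Real.log (2 * T) ≤ 2 * Real.log T := by
        rw [Real.log_mul (by norm_num) hT0.ne']
        have : Real.log 2 ≤ Real.log T := Real.log_le_log (by norm_num) (by linarith)
        linarith
      have f0 : 0 ≤ Real.log (2 * T) := Real.log_nonneg (by linarith)
      have f2 : d * Real.log (2 * T) + 2 ≤ (2 * d + 2) * Real.log T := by nlinarith
      have f3 : (d * Real.log (2 * T) + 2) ^ d ≤ (2 * d + 2) ^ d * Real.log T ^ d := by
        rw [← mul_pow]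
        exact pow_le_pow_left₀ (by positivity) f2 d
      rw [le_div_iff₀ (by linarith)]
      rw [Real.norm_of_nonneg (Real.rpow_nonneg (by linarith) _),
        Real.norm_of_nonneg (Real.rpow_nonneg (by linarith) _)] at t1
      have f4 : Real.log T ^ ((d : ℝ) + 1) = Real.log T ^ d * Real.log T := by
        rw [Real.rpow_add (by linarith), Real.rpow_natCast, Real.rpow_one]
      rw [f4] at t1
      have f5 : T ^ θ ≤ (T ^ θ) ^ d := le_self_pow₀ hH1 hd0.ne'
      calc C * (d * Real.log (2 * T) + 2) ^ d * Real.log T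
          ≤ C * ((2 * d + 2) ^ d * Real.log T ^ d) * Real.log T := by gcongr
        _ = C * (2 * d + 2) ^ d * (Real.log T ^ d * Real.log T) := by ring
        _ ≤ C * (2 * d + 2) ^ d * (κ / (2 * (C * (2 * d + 2) ^ d)) * T ^ θ) := by gcongr
        _ = κ / 2 * T ^ θ := by field_simp
        _ ≤ κ / 2 * (T ^ θ) ^ d := by gcongr
    have e4 := S.card_filter_add_card_filter_not (fun z => IsUnit z)
    have e5 : (((S.filter (fun z => IsUnit z)).card : ℕ) : ℝ) +
        (((S.filter (fun z => ¬ IsUnit z)).card : ℕ) : ℝ) = S.card := by exact_mod_cast e4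
    have e6 : κ * (T ^ θ) ^ d / Real.log T = 2 * (κ / 2 * (T ^ θ) ^ d / Real.log T) := by ring
    linarith
  · intro z hz
    rw [mem_filter] at hz
    obtain ⟨g1, g2, g3, g4⟩ := hS2 z hz.1
    exact ⟨g1, g2, hz.2, g3, g4⟩

end Pool.Agent.H525.SH
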