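import Pool.Agent.H525.SH.Lem

set_option autoImplicit false
set_option linter.unusedSectionVars false

/-! # Kuhn's sieve for the integers of a number field in a box -/

namespace Pool.Agent.H525.SH

open Finset NumberField Filter
open Pool.Agent.W23.DC Pool.Agent.Y882 Pool.Agent.Y677.KU
open Pool.Agent.H525.NF

open scoped Classical

/-- the absolute value of the norm of the integer with the coordinates `x` -/
noncomputable def nm {K : Type} [Field K] [NumberField K] {ι : Type} [Fintype ι]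
    (b : Module.Basis ι ℤ (𝓞 K)) (x : ι → ℤ) : ℕ := (Algebra.norm ℤ (∑ i, x i • b i)).natAbs

theorem er_bound (hIE : S_IE) (hLAT : S_LAT) (K : Type) [Field K] [NumberField K] (ι : Type) [Fintype ι]
    (b : Module.Basis ι ℤ (𝓞 K)) (hc : Fintype.card ι = Module.finrank ℚ K) :
    ∃ C : ℝ, 0 ≤ C ∧ ∀ (a : ι → ℤ) (W : ℕ) (G : ℕ → ℕ), (∀ (P : ℕ → Prop),
      ((range (Box a W).card).filter (fun n => P (G n))).card =
        ((Box a W).filter (fun x => P (nm b x))).card) → ∀ T : Finset ℕ, (∀ p ∈ T, p.Prime) →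
      Er (range (Box a W).card) G ((W ^ Fintype.card ι : ℕ) : ℝ) (hh K) T ≤
        ((2 : ℝ) ^ Fintype.card ι) ^ T.card * (C * (((W : ℝ) /
          ((∏ p ∈ T, p : ℕ) : ℝ) ^ ((1 : ℝ) / Fintype.card ι)) ^ (Fintype.card ι - 1) + 1)) := by
  obtain ⟨C, hC, hlat⟩ := hLAT K ι b
  refine ⟨C, by linarith, ?_⟩
  intro a W G hG T hT
  obtain ⟨J, hJ, I, c, h1, h2, h3, h4⟩ := hIE K T hT
  set d := Fintype.card ι with hd
  have hd0 : 0 < d := by rw [hc]; exact Module.finrank_pos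
  set D : ℕ := ∏ p ∈ T, p with hD
  have hD0 : 0 < D := Finset.prod_pos (fun p hp => (hT p hp).pos)
  have hD1 : (0:ℝ) < D := by exact_mod_cast hD0
  -- the number as a sum
  have hcount : (((range (Box a W).card).filter (fun n => D ∣ G n)).card : ℝ) =
      ∑ j, c j * (((Box a W).filter (fun x => (∑ i, x i • b i) ∈ I j)).card : ℝ) := by
    have e0 : ((range (Box a W).card).filter (fun n => D ∣ G n)).card =
        ((Box a W).filter (fun x => D ∣ nm b x)).card :=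
      (cfi _ _ _ _).trans ((hG (fun m => D ∣ m)).trans (cfi _ _ _ _))
    rw [e0, Finset.card_filter]
    push_cast
    have e1 : ∀ x ∈ Box a W, (if D ∣ nm b x then (1:ℝ) else 0) =
        ∑ j, c j * (if (∑ i, x i • b i) ∈ I j then 1 else 0) := fun x _ => h3 _
    rw [Finset.sum_congr rfl e1, Finset.sum_comm]
    apply Finset.sum_congr rfl
    intro j _
    rw [← Finset.mul_sum, Finset.card_filter]
    push_cast
    rfl
  unfold Er
  have hdec : (((range (Box a W).card).filter (fun n => (∏ p ∈ T, p) ∣ G n)).card : ℝ) =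
      ∑ j, c j * (((Box a W).filter (fun x => (∑ i, x i • b i) ∈ I j)).card : ℝ) := hcount
  have key : |(∑ j, c j * (((Box a W).filter (fun x => (∑ i, x i • b i) ∈ I j)).card : ℝ)) -
      ((W ^ d : ℕ) : ℝ) * ∏ p ∈ T, hh K p| ≤ ((2 : ℝ) ^ d) ^ T.card * (C * (((W : ℝ) /
          (D : ℝ) ^ ((1 : ℝ) / d)) ^ (d - 1) + 1)) := by
    rw [h4, Finset.mul_sum, ← Finset.sum_sub_distrib]
    refine (Finset.abs_sum_le_sum_abs _ _).trans ?_
    set E : ℝ := C * (((W : ℝ) / (D : ℝ) ^ ((1 : ℝ) / d)) ^ (d - 1) + 1) with hE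
    have hE0 : 0 ≤ E := by
      have : 0 ≤ ((W : ℝ) / (D : ℝ) ^ ((1 : ℝ) / d)) ^ (d - 1) := by positivity
      have hC0 : 0 ≤ C := by linarith
      positivity
    have hterm : ∀ j ∈ (univ : Finset J), |c j * (((Box a W).filter (fun x => (∑ i, x i • b i) ∈ I j)).card : ℝ) -
        ((W ^ d : ℕ) : ℝ) * (c j / (Ideal.absNorm (I j) : ℝ))| ≤ E := by
      intro j _
      obtain ⟨g1, g2, g3⟩ := h2 j
      have hN0 : 0 < Ideal.absNorm (I j) := by
        rw [Nat.pos_iff_ne_zero, Ne, Ideal.absNorm_eq_zero_iff]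
        exact g2
      have hN : (0:ℝ) < Ideal.absNorm (I j) := by exact_mod_cast hN0
      set s : ℝ := (Ideal.absNorm (I j) : ℝ) ^ ((1 : ℝ) / d) with hs
      have hs0 : 0 < s := Real.rpow_pos_of_pos hN _
      have hsd : s ^ d = Ideal.absNorm (I j) := by
        rw [hs, one_div]
        exact Real.rpow_inv_natCast_pow hN.le hd0.ne'
      have h5 := hlat (I j) g2 s hs0 hsd a W
      rw [div_pow, hsd] at h5
      have h6 : c j * (((Box a W).filter (fun x => (∑ i, x i • b i) ∈ I j)).card : ℝ) -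
        ((W ^ d : ℕ) : ℝ) * (c j / (Ideal.absNorm (I j) : ℝ)) =
        c j * ((((Box a W).filter (fun x => (∑ i, x i • b i) ∈ I j)).card : ℝ) -
          (W : ℝ) ^ d / (Ideal.absNorm (I j) : ℝ)) := by
        push_cast
        ring
      rw [h6, abs_mul]
      have h7 : (W : ℝ) / s ≤ (W : ℝ) / (D : ℝ) ^ ((1 : ℝ) / d) := by
        apply div_le_div_of_nonneg_left (Nat.cast_nonneg _) (Real.rpow_pos_of_pos hD1 _)
        apply Real.rpow_le_rpow hD1.le _ (by positivity)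
        exact_mod_cast Nat.le_of_dvd hN0 g3
      have h8 : ((W : ℝ) / s) ^ (d - 1) ≤ ((W : ℝ) / (D : ℝ) ^ ((1 : ℝ) / d)) ^ (d - 1) :=
        pow_le_pow_left₀ (by positivity) h7 _
      calc |c j| * |(((Box a W).filter (fun x => (∑ i, x i • b i) ∈ I j)).card : ℝ) -
          (W : ℝ) ^ d / (Ideal.absNorm (I j) : ℝ)| ≤ 1 * (C * (((W : ℝ) / s) ^ (d - 1) + 1)) :=
            mul_le_mul g1 h5 (abs_nonneg _) zero_le_one
        _ ≤ E := by
            rw [one_mul, hE]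
            apply mul_le_mul_of_nonneg_left _ (by linarith)
            linarith
    refine (Finset.sum_le_sum hterm).trans ?_
    rw [Finset.sum_const, Finset.card_univ, nsmul_eq_mul]
    apply mul_le_mul_of_nonneg_right _ hE0
    rw [← hc] at h1
    exact_mod_cast h1
  rw [← hdec] at key
  exact key

/-- asymptotics -/
theorem ev_siev (δ ζ β C A : ℝ) (hδ : 0 < δ) (hζ : 0 < ζ) (hβ : β < 1) (hC : 0 ≤ C) (hA : 0 < A) :
    ∀ᶠ Y : ℝ in atTop, 6 * Real.log Y * Y ^ (1 - δ) + C * (Y ^ (1 - ζ) * (1 + Real.log Y) + Y ^ β) ≤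
      A * Y / Real.log Y := by
  set m : ℝ := min δ (min ζ (1 - β)) with hm
  have hm0 : 0 < m := lt_min hδ (lt_min hζ (by linarith))
  have h1 : Tendsto (fun Y : ℝ => Real.log Y / Y ^ (m / 2)) atTop (nhds 0) :=
    (isLittleO_log_rpow_atTop (by positivity)).tendsto_div_nhds_zero
  have hη : 0 < Real.sqrt (A / (2 * (6 + 2 * C + 1))) := by positivity
  filter_upwards [h1.eventually (gt_mem_nhds hη), eventually_ge_atTop 3] with Y e1 e2
  have hY0 : 0 < Y := by linarith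
  have hlog : 1 ≤ Real.log Y := by
    rw [Real.le_log_iff_exp_le hY0]
    linarith [Real.exp_one_lt_d9]
  have hl0 : 0 < Real.log Y := by linarith
  have hYm : 0 < Y ^ (m / 2) := Real.rpow_pos_of_pos hY0 _
  have hpow : ∀ u : ℝ, u ≤ 1 - m → Y ^ u ≤ Y ^ (1 - m) := fun u hu =>
    Real.rpow_le_rpow_of_exponent_le (by linarith) hu
  have g1 : Y ^ (1 - δ) ≤ Y ^ (1 - m) := hpow _ (by linarith [min_le_left δ (min ζ (1 - β))])
  have g2 : Y ^ (1 - ζ) ≤ Y ^ (1 - m) := hpow _ (by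
    linarith [(min_le_right δ (min ζ (1 - β))).trans (min_le_left _ _)])
  have g3 : Y ^ β ≤ Y ^ (1 - m) := hpow _ (by
    linarith [(min_le_right δ (min ζ (1 - β))).trans (min_le_right _ _)])
  have hP : 0 < Y ^ (1 - m) := Real.rpow_pos_of_pos hY0 _
  have h2 : 6 * Real.log Y * Y ^ (1 - δ) + C * (Y ^ (1 - ζ) * (1 + Real.log Y) + Y ^ β) ≤
      2 * (6 + 2 * C) * (Real.log Y * Y ^ (1 - m)) := by
    have a1 : 6 * Real.log Y * Y ^ (1 - δ) ≤ 6 * Real.log Y * Y ^ (1 - m) :=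
      mul_le_mul_of_nonneg_left g1 (by positivity)
    have a2 : Y ^ (1 - ζ) * (1 + Real.log Y) ≤ Y ^ (1 - m) * (2 * Real.log Y) :=
      mul_le_mul g2 (by linarith) (by positivity) hP.le
    have a3 : Y ^ β ≤ Real.log Y * Y ^ (1 - m) := by nlinarith only [g3, hlog, hP]
    have a4 : C * (Y ^ (1 - ζ) * (1 + Real.log Y) + Y ^ β) ≤
        C * (Y ^ (1 - m) * (2 * Real.log Y) + Real.log Y * Y ^ (1 - m)) :=
      mul_le_mul_of_nonneg_left (by linarith) hC
    have a5 : 0 ≤ C * (Real.log Y * Y ^ (1 - m)) := by positivity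
    have a6 : 0 ≤ Real.log Y * Y ^ (1 - m) := by positivity
    nlinarith only [a1, a4, a5, a6]
  refine h2.trans ?_
  rw [le_div_iff₀ hl0]
  have h3 : Real.log Y ^ 2 ≤ A / (2 * (6 + 2 * C + 1)) * Y ^ m := by
    have b1 : Real.log Y < Real.sqrt (A / (2 * (6 + 2 * C + 1))) * Y ^ (m / 2) := by
      rwa [div_lt_iff₀ hYm] at e1
    have b2 : Real.log Y ^ 2 ≤ (Real.sqrt (A / (2 * (6 + 2 * C + 1))) * Y ^ (m / 2)) ^ 2 :=
      pow_le_pow_left₀ hl0.le b1.le 2
    rw [mul_pow, Real.sq_sqrt (by positivity), ← Real.rpow_natCast (Y ^ (m / 2)) 2,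
      ← Real.rpow_mul hY0.le] at b2
    have b3 : m / 2 * ((2 : ℕ) : ℝ) = m := by push_cast; ring
    rwa [b3] at b2
  have h4 : Y ^ m * Y ^ (1 - m) = Y := by
    rw [← Real.rpow_add hY0]
    have : m + (1 - m) = 1 := by ring
    rw [this, Real.rpow_one]
  calc 2 * (6 + 2 * C) * (Real.log Y * Y ^ (1 - m)) * Real.log Y =
      2 * (6 + 2 * C) * (Real.log Y ^ 2 * Y ^ (1 - m)) := by ring
    _ ≤ 2 * (6 + 2 * C) * (A / (2 * (6 + 2 * C + 1)) * Y ^ m * Y ^ (1 - m)) := by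
        apply mul_le_mul_of_nonneg_left _ (by positivity)
        exact mul_le_mul_of_nonneg_right h3 hP.le
    _ = (2 * (6 + 2 * C)) / (2 * (6 + 2 * C + 1)) * (A * (Y ^ m * Y ^ (1 - m))) := by
        field_simp
    _ ≤ 1 * (A * (Y ^ m * Y ^ (1 - m))) := by
        apply mul_le_mul_of_nonneg_right _ (by positivity)
        rw [div_le_one (by positivity)]
        linarith
    _ = A * Y := by rw [h4, one_mul]

/-- the sifted elements -/
theorem sieve (hIE : S_IE) (hLAT : S_LAT) (hSQ : S_SQ) (hCOND : S_COND) (hVLOW : S_VLOW) (hERR : S_ERR)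
    (K : Type) [Field K] [NumberField K] (ι : Type) [Fintype ι]
    (b : Module.Basis ι ℤ (𝓞 K)) (hc : Fintype.card ι = Module.finrank ℚ K) (τ ζ β : ℝ) (hζ : 0 < ζ)
    (h2 : 2 * ζ < τ) (h4 : τ ≤ 4 * ζ) (hτ : τ < 1) (hζβ : ζ ≤ β) (hβ : ζ + β < τ) :
    ∃ c : ℝ, 0 < c ∧ ∃ W0 : ℕ, ∀ W : ℕ, W0 ≤ W → ∀ a : ι → ℤ,
      c * ((W ^ Fintype.card ι : ℕ) : ℝ) / Real.log ((W ^ Fintype.card ι : ℕ) : ℝ) ≤
      (((Box a W).filter (fun x => (∀ p ∈ PZ (W ^ Fintype.card ι) ζ, ¬ p ∣ nm b x) ∧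
        ((pr (W ^ Fintype.card ι) ζ β).filter (fun q => q ∣ nm b x)).card ≤ 1 ∧
        ∀ q ∈ pr (W ^ Fintype.card ι) ζ β, ¬ q ^ 2 ∣ nm b x)).card : ℝ) := by
  set d := Fintype.card ι with hd
  have hd0 : 0 < d := by rw [hc]; exact Module.finrank_pos
  set δ : ℝ := (1 - τ) / 2 with hδ
  have hδ0 : 0 < δ := by rw [hδ]; linarith
  obtain ⟨ε₁, η₁, c₀, hε₁, hεζ, hη₁, hc₀, Yk, hk⟩ := kuhn (Module.finrank ℚ K) τ ζ β δ hζ h2 h4 hτ.le hζβ
    hβ hδ0
  obtain ⟨Yc, hYc⟩ := hCOND K ε₁ β η₁ hε₁ (by linarith) (by linarith) hη₁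
  obtain ⟨cV, hcV, hV⟩ := hVLOW K
  obtain ⟨CE, hCE, hEr⟩ := er_bound hIE hLAT K ι b hc
  obtain ⟨δ', hδ', We, hWe⟩ := hERR d CE (τ + δ) hd0 hCE (by linarith) (by rw [hδ]; linarith)
  obtain ⟨CS, hCS, hsq⟩ := hSQ K ι b
  have hev := ev_siev δ' ζ β CS (c₀ * cV / 2) hδ' hζ (by linarith) (by linarith) (by positivity)
  obtain ⟨Y₂, hY₂⟩ := eventually_atTop.1 hev
  refine ⟨c₀ * cV / 2, by positivity, max (max Yk Yc) (max We (max ⌈Y₂⌉₊ 3)), ?_⟩
  intro W hW a
  have w1 : Yk ≤ W := (le_max_left _ _).trans ((le_max_left _ _).trans hW)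
  have w2 : Yc ≤ W := (le_max_right _ _).trans ((le_max_left _ _).trans hW)
  have w3 : We ≤ W := (le_max_left _ _).trans ((le_max_right _ _).trans hW)
  have w4 : ⌈Y₂⌉₊ ≤ W := (le_max_left _ _).trans ((le_max_right _ _).trans ((le_max_right _ _).trans hW))
  have w5 : 3 ≤ W := (le_max_right _ _).trans ((le_max_right _ _).trans ((le_max_right _ _).trans hW))
  set Y : ℕ := W ^ d with hY
  have hWY : W ≤ Y := by rw [hY]; exact Nat.le_self_pow hd0.ne' W
  have hY3 : 3 ≤ Y := w5.trans hWY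
  have hY3r : (3:ℝ) ≤ Y := by exact_mod_cast hY3
  have hlogY : 0 < Real.log Y := Real.log_pos (by linarith)
  obtain ⟨G, hG⟩ := exists_index (Box a W) (nm b)
  have hG' : ∀ (P : ℕ → Prop), ((range (Box a W).card).filter (fun n => P (G n))).card =
      ((Box a W).filter (fun x => P (nm b x))).card := hG
  have hkk := hk Y (w1.trans hWY) (range (Box a W).card) G (Y : ℝ) (hh K) (Nat.cast_nonneg _)
    (hYc Y (w2.trans hWY))
  -- the errors
  have herr : ∑ T ∈ (PZ Y β).powerset.filter (fun T => ((∏ p ∈ T, p : ℕ) : ℝ) ≤ (Y : ℝ) ^ (τ + δ)),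
      Er (range (Box a W).card) G (Y : ℝ) (hh K) T ≤ (Y : ℝ) ^ (1 - δ') := by
    have e1 := hWe W w3 ((PZ Y β).powerset.filter
      (fun T => ((∏ p ∈ T, p : ℕ) : ℝ) ≤ (Y : ℝ) ^ (τ + δ))) (by
        intro T hT
        rw [mem_filter, mem_powerset] at hT
        exact ⟨fun p hp => (mem_PZ.1 (hT.1 hp)).2.1, hT.2⟩)
    refine le_trans (Finset.sum_le_sum (fun T hT => ?_)) e1
    rw [mem_filter, mem_powerset] at hT
    exact hEr a W G hG' T (fun p hp => (mem_PZ.1 (hT.1 hp)).2.1)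
  -- the product
  have hVV := hV Y ε₁ (by omega)
  -- the count of the squares
  set Bad := (Box a W).filter (fun x => ∃ q ∈ pr Y ζ β, q ^ 2 ∣ nm b x) with hBad
  have hbad : (Bad.card : ℝ) ≤ CS * ((Y : ℝ) ^ (1 - ζ) * (1 + Real.log Y) + (Y : ℝ) ^ β) := by
    have e1 : Bad ⊆ (pr Y ζ β).biUnion (fun q => (Box a W).filter (fun x => q ^ 2 ∣ nm b x)) := by
      intro x hx
      rw [hBad, mem_filter] at hx
      obtain ⟨hx1, q, hq, hx2⟩ := hx
      rw [mem_biUnion]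
      exact ⟨q, hq, mem_filter.2 ⟨hx1, hx2⟩⟩
    have e2 : (Bad.card : ℝ) ≤ ∑ q ∈ pr Y ζ β, (((Box a W).filter (fun x => q ^ 2 ∣ nm b x)).card : ℝ) := by
      exact_mod_cast (Finset.card_le_card e1).trans Finset.card_biUnion_le
    have e3 : ∀ q ∈ pr Y ζ β, (((Box a W).filter (fun x => q ^ 2 ∣ nm b x)).card : ℝ) ≤
        CS * ((Y : ℝ) ^ (1 - ζ) * (1 / (q : ℝ)) + 1) := by
      intro q hq
      rw [mem_pr'] at hq
      obtain ⟨⟨q1, q2⟩, q3, q4, q5⟩ := hq
      have hq0 : (0:ℝ) < q := by exact_mod_cast q3.pos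
      refine (hsq q q3 a W).trans ?_
      apply mul_le_mul_of_nonneg_left _ (by linarith)
      have e4 : (Y : ℝ) ^ ζ ≤ q := by
        by_contra hcon
        push Not at hcon
        have := (tt_lt Y q ζ (by omega) q3.pos).2 hcon
        linarith
      have e5 : ((W : ℝ) ^ d) / (q : ℝ) ^ 2 ≤ (Y : ℝ) ^ (1 - ζ) * (1 / (q : ℝ)) := by
        have e6 : ((W : ℝ) ^ d) = Y := by rw [hY]; push_cast; rfl
        rw [e6, Real.rpow_sub (by linarith), Real.rpow_one, sq]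
        have e7 : (Y : ℝ) / (q * q) = (Y : ℝ) / q * (1 / q) := by field_simp
        rw [e7]
        apply mul_le_mul_of_nonneg_right _ (by positivity)
        exact div_le_div_of_nonneg_left (by linarith) (Real.rpow_pos_of_pos (by linarith) _) e4
      linarith
    refine e2.trans ((Finset.sum_le_sum e3).trans ?_)
    rw [← Finset.mul_sum, Finset.sum_add_distrib, ← Finset.mul_sum]
    apply mul_le_mul_of_nonneg_left _ (by linarith)
    apply add_le_add
    · apply mul_le_mul_of_nonneg_left _ (Real.rpow_nonneg (by linarith) _)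
      have e8 : ∑ q ∈ pr Y ζ β, 1 / (q : ℝ) ≤ ∑ q ∈ Icc 1 Y, 1 / (q : ℝ) := by
        apply Finset.sum_le_sum_of_subset_of_nonneg
        · intro q hq
          rw [mem_pr'] at hq
          rw [mem_Icc]
          exact hq.1
        · intro q _ _
          positivity
      have e9 := harmonic_le_one_add_log Y
      rw [harmonic_eq_sum_Icc] at e9
      push_cast at e9
      refine e8.trans ?_
      simpa [one_div] using e9
    · rw [Finset.sum_const, nsmul_eq_mul, mul_one]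
      have e10 : pr Y ζ β ⊆ Finset.Icc 1 ⌊(Y : ℝ) ^ β⌋₊ := by
        intro q hq
        rw [mem_pr'] at hq
        rw [mem_Icc]
        refine ⟨hq.1.1, Nat.le_floor ?_⟩
        exact ((tt_lt Y q β (by omega) hq.2.1.pos).1 hq.2.2.2).le
      have e11 := Finset.card_le_card e10
      rw [Nat.card_Icc, Nat.add_sub_cancel] at e11
      exact (Nat.cast_le.2 e11).trans (Nat.floor_le (Real.rpow_nonneg (by linarith) _))
  -- comparison
  set Gd := (Box a W).filter (fun x => (∀ p ∈ PZ Y ζ, ¬ p ∣ nm b x) ∧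
        ((pr Y ζ β).filter (fun q => q ∣ nm b x)).card ≤ 1 ∧
        ∀ q ∈ pr Y ζ β, ¬ q ^ 2 ∣ nm b x) with hGd
  have hcmp : (((range (Box a W).card).filter (fun n => (∀ p ∈ PZ Y ζ, ¬ p ∣ G n) ∧
        ((pr Y ζ β).filter (fun q => q ∣ G n)).card ≤ 1)).card : ℝ) ≤ Gd.card + Bad.card := by
    have e1 := hG' (fun m => (∀ p ∈ PZ Y ζ, ¬ p ∣ m) ∧ ((pr Y ζ β).filter (fun q => q ∣ m)).card ≤ 1)
    have e2 : (Box a W).filter (fun x => (∀ p ∈ PZ Y ζ, ¬ p ∣ nm b x) ∧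
        ((pr Y ζ β).filter (fun q => q ∣ nm b x)).card ≤ 1) ⊆ Gd ∪ Bad := by
      intro x hx
      rw [mem_filter] at hx
      rw [mem_union, hGd, hBad, mem_filter, mem_filter]
      by_cases h : ∃ q ∈ pr Y ζ β, q ^ 2 ∣ nm b x
      · exact Or.inr ⟨hx.1, h⟩
      · push Not at h
        exact Or.inl ⟨hx.1, hx.2.1, hx.2.2, h⟩
    have e3 : ((range (Box a W).card).filter (fun n => (∀ p ∈ PZ Y ζ, ¬ p ∣ G n) ∧
        ((pr Y ζ β).filter (fun q => q ∣ G n)).card ≤ 1)).card ≤ Gd.card + Bad.card := by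
      have e4 := (Finset.card_le_card e2).trans (Finset.card_union_le _ _)
      refine le_trans (le_of_eq ?_) e4
      exact (cfi _ _ _ _).trans (e1.trans (cfi _ _ _ _))
    exact_mod_cast e3
  have hkk' : c₀ * (Y : ℝ) * ∏ p ∈ PZ Y ε₁, (1 - hh K p) - 6 * Real.log Y *
      ∑ T ∈ (PZ Y β).powerset.filter (fun T => ((∏ p ∈ T, p : ℕ) : ℝ) ≤ (Y : ℝ) ^ (τ + δ)),
      Er (range (Box a W).card) G (Y : ℝ) (hh K) T ≤ Gd.card + Bad.card := by
    refine le_trans hkk (le_trans (le_of_eq ?_) hcmp)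
    rfl
  have hYY := hY₂ (Y : ℝ) (by
    refine (Nat.le_ceil _).trans ?_
    exact_mod_cast w4.trans hWY)
  have m1 : c₀ * cV * (Y : ℝ) / Real.log Y ≤ c₀ * (Y : ℝ) * ∏ p ∈ PZ Y ε₁, (1 - hh K p) := by
    have := mul_le_mul_of_nonneg_left hVV (show 0 ≤ c₀ * (Y : ℝ) by positivity)
    refine le_trans (le_of_eq ?_) this
    ring
  have m2 : 6 * Real.log Y *
      ∑ T ∈ (PZ Y β).powerset.filter (fun T => ((∏ p ∈ T, p : ℕ) : ℝ) ≤ (Y : ℝ) ^ (τ + δ)),
      Er (range (Box a W).card) G (Y : ℝ) (hh K) T ≤ 6 * Real.log Y * (Y : ℝ) ^ (1 - δ') :=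
    mul_le_mul_of_nonneg_left herr (by positivity)
  have m3 : c₀ * cV * (Y : ℝ) / Real.log Y = c₀ * cV / 2 * (Y : ℝ) / Real.log Y +
      c₀ * cV / 2 * (Y : ℝ) / Real.log Y := by ring
  linarith

end Pool.Agent.H525.SH
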