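import Pool.Agent.H525.SH.Stm
import Pool.Agent.H525.NF.Basic

set_option autoImplicit false
set_option linter.unusedSectionVars false

/-! # Small lemmas for the almost primes in short cubes -/

namespace Pool.Agent.H525.SH

open Finset NumberField Filter
open Pool.Agent.W23.DC Pool.Agent.Y882 Pool.Agent.Y677.KU
open Pool.Agent.H525.NF

open scoped Classical

theorem cfi {α : Type} (s : Finset α) (p : α → Prop) (d1 d2 : DecidablePred p) :
    (@Finset.filter α p d1 s).card = (@Finset.filter α p d2 s).card := by
  rw [Subsingleton.elim d1 d2]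

/-- numbering a finite set -/
theorem exists_index {α : Type} (B : Finset α) (g : α → ℕ) : ∃ G : ℕ → ℕ, ∀ (P : ℕ → Prop),
    ((range B.card).filter (fun n => P (G n))).card = (B.filter (fun x => P (g x))).card := by
  refine ⟨fun n => if h : n < B.card then g ((B.equivFin.symm ⟨n, h⟩ : B) : α) else 0, fun P => ?_⟩
  symm
  refine Finset.card_bij (fun x hx => ((B.equivFin ⟨x, (mem_filter.1 hx).1⟩ : Fin B.card) : ℕ))
    ?_ ?_ ?_
  · intro x hx
    rw [mem_filter] at hx
    rw [mem_filter, mem_range]
    refine ⟨(B.equivFin ⟨x, hx.1⟩).2, ?_⟩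
    simp only [dif_pos (B.equivFin ⟨x, hx.1⟩).2, Fin.eta, Equiv.symm_apply_apply]
    exact hx.2
  · intro x hx y hy h
    have h1 := B.equivFin.injective (Fin.ext h)
    exact congrArg Subtype.val h1
  · intro n hn
    rw [mem_filter, mem_range] at hn
    obtain ⟨hn1, hn2⟩ := hn
    simp only [dif_pos hn1] at hn2
    refine ⟨((B.equivFin.symm ⟨n, hn1⟩ : B) : α), ?_, ?_⟩
    · rw [mem_filter]
      exact ⟨(B.equivFin.symm ⟨n, hn1⟩).2, hn2⟩
    · simp

/-- a list with at most one entry below `B` -/
theorem prod_list_ge (A B : ℝ) (hA : 1 ≤ A) (hAB : A ≤ B) : ∀ l : List ℕ, l ≠ [] →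
    (∀ p ∈ l, A ≤ (p : ℝ)) → (l.filter (fun p : ℕ => decide ((p : ℝ) < B))).length ≤ 1 →
    A * B ^ (l.length - 1) ≤ (l.prod : ℝ) := by
  have hB0 : 0 < B := by linarith
  have hbig : ∀ l : List ℕ, (l.filter (fun p : ℕ => decide ((p : ℝ) < B))).length = 0 →
      B ^ l.length ≤ (l.prod : ℝ) := by
    intro l
    induction l with
    | nil => intro _; simp
    | cons p t ih =>
      intro h
      rw [List.length_eq_zero_iff, List.filter_eq_nil_iff] at h
      have hp : ¬ ((p : ℝ) < B) := by simpa using h p (by simp)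
      have ht : (t.filter (fun p : ℕ => decide ((p : ℝ) < B))).length = 0 := by
        rw [List.length_eq_zero_iff, List.filter_eq_nil_iff]
        intro a ha
        exact h a (by simp [ha])
      rw [List.length_cons, List.prod_cons, pow_succ, mul_comm, Nat.cast_mul]
      exact mul_le_mul (not_lt.1 hp) (ih ht) (by positivity) (by linarith [not_lt.1 hp])
  intro l
  induction l with
  | nil => intro h; exact absurd rfl h
  | cons p t ih =>
    intro _ hA' hcount
    have hpA : A ≤ (p : ℝ) := hA' p (by simp)
    rw [List.length_cons, Nat.add_sub_cancel, List.prod_cons, Nat.cast_mul]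
    by_cases hp : (p : ℝ) < B
    · rw [List.filter_cons_of_pos (by simpa using hp), List.length_cons] at hcount
      exact mul_le_mul hpA (hbig t (by omega)) (by positivity) (by linarith)
    · rw [List.filter_cons_of_neg (by simpa using hp)] at hcount
      rcases eq_or_ne t [] with h | h
      · rw [h]
        rw [List.length_nil, pow_zero, mul_one, List.prod_nil, Nat.cast_one, mul_one]
        exact hpA
      · have h1 := ih h (fun q hq => hA' q (by simp [hq])) hcount
        have h2 : t.length = (t.length - 1) + 1 := by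
          have := List.length_pos_iff.2 h
          omega
        calc A * B ^ t.length = B * (A * B ^ (t.length - 1)) := by
              rw [h2, pow_succ, Nat.add_sub_cancel]
              ring
          _ ≤ (p : ℝ) * (t.prod : ℝ) :=
              mul_le_mul (not_lt.1 hp) h1 (by positivity) (by linarith [not_lt.1 hp])

/-- numbers with few prime factors -/
theorem few_factors (n : ℕ) (hn : n ≠ 0) (A B : ℝ) (r : ℕ) (hA : 1 ≤ A) (hAB : A ≤ B)
    (h1 : ∀ p : ℕ, p.Prime → p ∣ n → A ≤ (p : ℝ))
    (h2 : ∀ p q : ℕ, p.Prime → q.Prime → p ∣ n → q ∣ n → (p : ℝ) < B → (q : ℝ) < B → p = q)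
    (h3 : ∀ p : ℕ, p.Prime → (p : ℝ) < B → ¬ p ^ 2 ∣ n) (hlt : (n : ℝ) < A * B ^ r) :
    n.primeFactorsList.length ≤ r := by
  by_contra hcon
  push Not at hcon
  have hne : n.primeFactorsList ≠ [] := by
    intro h
    rw [h] at hcon
    simp at hcon
  have hcount : (n.primeFactorsList.filter (fun p : ℕ => decide ((p : ℝ) < B))).length ≤ 1 := by
    by_contra h
    push Not at h
    obtain ⟨p, q, t, ht⟩ : ∃ p q t, n.primeFactorsList.filter (fun p : ℕ => decide ((p : ℝ) < B)) =
        p :: q :: t := by
      match hm : n.primeFactorsList.filter (fun p : ℕ => decide ((p : ℝ) < B)) with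
      | [] => rw [hm] at h; simp at h
      | [a] => rw [hm] at h; simp at h
      | a :: b :: t => exact ⟨a, b, t, rfl⟩
    have hmem : ∀ a ∈ n.primeFactorsList.filter (fun p : ℕ => decide ((p : ℝ) < B)),
        a.Prime ∧ a ∣ n ∧ (a : ℝ) < B := by
      intro a ha
      rw [List.mem_filter] at ha
      exact ⟨Nat.prime_of_mem_primeFactorsList ha.1, Nat.dvd_of_mem_primeFactorsList ha.1,
        by simpa using ha.2⟩
    rw [ht] at hmem
    obtain ⟨p1, p2, p3⟩ := hmem p (by simp)
    obtain ⟨q1, q2, q3⟩ := hmem q (by simp)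
    have hpq := h2 p q p1 q1 p2 q2 p3 q3
    subst hpq
    apply h3 p p1 p3
    have hsub : List.Sublist [p, p] n.primeFactorsList := by
      have e1 : List.Sublist [p, p] (p :: p :: t) := by simp
      rw [← ht] at e1
      exact e1.trans List.filter_sublist
    have h4 := hsub.prod_dvd_prod
    rw [Nat.prod_primeFactorsList hn] at h4
    simpa [sq] using h4
  have h5 := prod_list_ge A B hA hAB n.primeFactorsList hne
    (fun p hp => h1 p (Nat.prime_of_mem_primeFactorsList hp) (Nat.dvd_of_mem_primeFactorsList hp))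
    hcount
  rw [Nat.prod_primeFactorsList hn] at h5
  have h6 : B ^ r ≤ B ^ (n.primeFactorsList.length - 1) :=
    pow_le_pow_right₀ (by linarith) (by omega)
  have h7 : A * B ^ r ≤ A * B ^ (n.primeFactorsList.length - 1) :=
    mul_le_mul_of_nonneg_left h6 (by linarith)
  linarith

end Pool.Agent.H525.SH
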