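import Pool.Graph.R_pool_sql_team_seeded_1acbe0a2.Y677.KU.Roots
import Pool.Agent.H525.NF.Lat

set_option autoImplicit false

/-! # Statements used for almost primes in short cubes of number fields (helper525)

`S_X` are propositions, each is proved in a separate file (`t_X`). The sieve is Kuhn's weighted linear sieve of
the library (`Pool.Agent.Y677.KU.kuhn`). -/

namespace Pool.Agent.H525.SH

open Finset NumberField Filter
open Pool.Agent.W23.DC Pool.Agent.Y882 Pool.Agent.Y677.KU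
open Pool.Agent.H525.NF (Box)

open scoped Classical

/-- the prime ideals above the prime number `p` -/
noncomputable def PA (K : Type) [Field K] [NumberField K] (p : ℕ) : Finset (Ideal (𝓞 K)) :=
  (UniqueFactorizationMonoid.normalizedFactors (Ideal.span {((p : ℕ) : 𝓞 K)})).toFinset

/-- the proportion of the integers of `K` whose norm is divisible by `p` -/
noncomputable def hh (K : Type) [Field K] [NumberField K] (p : ℕ) : ℝ :=
  1 - ∏ P ∈ PA K p, (1 - 1 / (Ideal.absNorm P : ℝ))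

/-- PAF. The prime ideals above `p`.

Proof. First claim: `Ideal.mem_normalizedFactors_iff`, `Multiset.mem_toFinset`. Second: `absNorm P` divides the norm
`p ^ d` of `p` (`Ideal.absNorm_dvd_norm_of_mem`, `Algebra.norm_algebraMap`), so it is a power of `p`, and it is not
`1`. Third: the product of the `P ∈ PA K p` divides (contains) the ideal `(p)` (a `toFinset` product is at most the
product of the multiset, or `Finset.prod_dvd_of_coprime`), so the product of the numbers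
`absNorm P ≥ p` divides `p ^ d`. Fourth: if `z ∈ P` then `absNorm P ∣ norm z`. If `p ∣ norm z` and `z ≠ 0`, the
norm of the ideal `(z)` is the product of the norms of its prime factors (`Ideal.absNorm_span_singleton`,
`map_multiset_prod`), so `p` divides `absNorm Q` for a prime factor `Q` of `(z)`; `absNorm Q ∈ Q`
(`Ideal.absNorm_mem`); `absNorm Q = p * m`, so that `p ∈ Q` or `m ∈ Q`; repeat (or: `Q` contains a prime number `ℓ`,
`absNorm Q` is a power of `ℓ` as above, so `ℓ = p`). If `z = 0` take any maximal ideal containing `p` (exists as `p`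
is not a unit of `𝓞 K`: its norm is `p ^ d`). Similar lemmas: `dvd_norm` in `Pool/Agent/H525/ISO/Final.lean`. -/
def S_PAF : Prop := ∀ (K : Type) [Field K] [NumberField K] (p : ℕ), p.Prime →
  (∀ P : Ideal (𝓞 K), P ∈ PA K p ↔ P.IsPrime ∧ ((p : ℕ) : 𝓞 K) ∈ P) ∧
  (∀ P ∈ PA K p, ∃ f : ℕ, 1 ≤ f ∧ Ideal.absNorm P = p ^ f) ∧
  (PA K p).card ≤ Module.finrank ℚ K ∧
  (∀ z : 𝓞 K, p ∣ (Algebra.norm ℤ z).natAbs ↔ ∃ P ∈ PA K p, z ∈ P)

/-- IE. Inclusion and exclusion.

Proof. For a function `φ` on the ideals, `∏_{p ∈ T} (1 - ∏_{P ∈ PA K p} (1 - φ P))` is the sum over the families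
`(A_p)_{p ∈ T}` of nonempty subsets `A_p` of `PA K p` of `∏_{p ∈ T} (-1) ^ (|A_p| + 1) ∏_{P ∈ A_p} φ P`
(`Finset.prod_one_sub_ordered` or `Finset.prod_sub`/`Finset.prod_add` for one `p`, then `Finset.prod_sum` or
`Finset.prod_univ_sum`; or induction on `T`). Take `J` = the type of these families (a subtype of a finite type, or
`↥(T.pi fun p => (PA K p).powerset.erase ∅)`), and `I` = the product of the prime ideals of the family. Apply this
to `φ P = 1[z ∈ P]` and to `φ P = 1 / absNorm P`. All prime ideals which occur are different, so that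
`z ∈ ∏ P ↔ ∀ P, z ∈ P` (`IsDedekindDomain.inf_pow_eq_prod_of_prime` with exponents one), and `absNorm` is
multiplicative. The number of the subsets of `PA K p` is at most `2 ^ d`. Prime numbers `p ∈ T` which divide the
norm of `z`: `S_PAF`, and `∏ p ∣ n ↔ ∀ p ∈ T, p ∣ n` for different prime numbers. -/
def S_IE : Prop := ∀ (K : Type) [Field K] [NumberField K] (T : Finset ℕ), (∀ p ∈ T, p.Prime) →
  ∃ (J : Type) (_ : Fintype J) (I : J → Ideal (𝓞 K)) (c : J → ℝ),
    Fintype.card J ≤ (2 ^ Module.finrank ℚ K) ^ T.card ∧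
    (∀ j, |c j| ≤ 1 ∧ I j ≠ ⊥ ∧ (∏ p ∈ T, p) ∣ Ideal.absNorm (I j)) ∧
    (∀ z : 𝓞 K, (if (∏ p ∈ T, p) ∣ (Algebra.norm ℤ z).natAbs then (1 : ℝ) else 0) =
      ∑ j, c j * (if z ∈ I j then 1 else 0)) ∧
    ∏ p ∈ T, hh K p = ∑ j, c j / (Ideal.absNorm (I j) : ℝ)

/-- LAT. The number of the points of a box in an ideal, with an error term.

Proof. Constants `C` depend on `b`. Write `|x|` for the maximum of the absolute values of the coordinates `x i`, and
identify `x : ι → ℤ` with `∑ x i • b i`. Facts: (i) `|σ x| ≤ C |x|` for all embeddings `σ` (`emb_bound` in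
`Pool/Agent/H525/NF/Basic.lean`), `|x| ≤ C max |σ x|` (`Pool.Agent.H525.ISO.Coord.t_COORD`), and
`|norm x| = ∏ |σ x|` (`norm_eq`).
(a) There is `γ ∈ I`, `γ ≠ 0`, `|γ| ≤ s`: the `(⌊s⌋ + 1) ^ d > s ^ d = absNorm I` vectors with coordinates in
`{0, …, ⌊s⌋}` are not all different modulo `I` (`Ideal.absNorm I = Nat.card (𝓞 K ⧸ I)`).
(b) Each class modulo `I` has a representative `v` with `|v| ≤ C s`: for a representative `z` write
`z / γ = ∑ c_i b_i`, `c_i ∈ ℚ`, and take `v = z - γ ∑ ⌊c_i⌋ b_i = γ ∑ (c_i - ⌊c_i⌋) b_i`, so that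
`|σ v| ≤ |σ γ| ∑ |σ b_i|`. Let `V` be a system of representatives, `|V| = absNorm I`.
(c) The points of `I` are separated: for `x ≠ 0` in `I` we have `s ^ d = absNorm I ≤ |norm x| ≤ (C |x|) ^ d`, so
`|x| ≥ s / C`.
(d) Let `R = ⌈C s⌉` be an integral bound for `|v|`, `v ∈ V`. Let `n(a)` be the number of the points of `I` in
`Box a W`. For `v ∈ V` the sets `Box a W` and `Box (a + v) W` differ only by points in at most `2 d` slabs: boxes of
side at most `W + 2 R` in all directions but one, and at most `R` in that direction. By (c) the number of the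
points of `I` in a slab is at most `C (W / s + 1) ^ (d - 1)` (map `x` to the floors of `C x_i / s`; for
the cube see `packing` in `Lat.lean`); as `R ≤ C s + 1 ≤ 2 C s`. So
`|n(a) - n(a + v)| ≤ C ((W / s) ^ (d - 1) + 1)` by `(x + 1) ^ (d - 1) ≤ 2 ^ (d - 1) (x ^ (d - 1) + 1)`.
(e) `∑_{v ∈ V} n(a + v) = W ^ d`, as for each `y ∈ Box a W` there is exactly one `v ∈ V` with
`y + v ∈ I`, and the sum counts the pairs `(v, x)` with `x ∈ I` and `x - v ∈ Box a W`. Divide by
`|V| = absNorm I = s ^ d`. -/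
def S_LAT : Prop := ∀ (K : Type) [Field K] [NumberField K] (ι : Type) [Fintype ι]
  (b : Module.Basis ι ℤ (𝓞 K)), ∃ C : ℝ, 1 ≤ C ∧ ∀ (I : Ideal (𝓞 K)), I ≠ ⊥ →
    ∀ (s : ℝ), 0 < s → s ^ Fintype.card ι = Ideal.absNorm I → ∀ (a : ι → ℤ) (W : ℕ),
    |(((Box a W).filter (fun x => (∑ i, x i • b i) ∈ I)).card : ℝ) - ((W : ℝ) / s) ^ Fintype.card ι| ≤
      C * (((W : ℝ) / s) ^ (Fintype.card ι - 1) + 1)

/-- SQ. Norms divisible by the square of a prime number.

Proof. Let `z ≠ 0` with `p ^ 2 ∣ norm z`. Then `z` is in one of the following ideals `I`, all with `p ^ 2 ∣ absNorm I`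
(so `absNorm I ≥ p ^ 2`): `P ∈ PA K p` with `absNorm P ≠ p`; `P ^ 2` with `P ∈ PA K p`; `P * Q` with different
`P, Q ∈ PA K p`. (Write the ideal `(z)` as the product of prime ideals; the factors not in `PA K p` have norm prime to
`p`, so the norms of the factors in `PA K p` have a product divisible by `p ^ 2`: either one has a norm different from
`p`, or there are at least two, with multiplicity.) These are at most `2 d + d ^ 2` ideals, and by `S_LAT` with
`s ^ d = absNorm I ≥ p ^ 2` each has at most `(1 + C) ((W / s) ^ d + 1) + C` points in the box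
(`x ^ (d - 1) ≤ x ^ d + 1`). The point `0` is counted by the last term. -/
def S_SQ : Prop := ∀ (K : Type) [Field K] [NumberField K] (ι : Type) [Fintype ι]
  (b : Module.Basis ι ℤ (𝓞 K)), ∃ C : ℝ, 1 ≤ C ∧ ∀ p : ℕ, p.Prime → ∀ (a : ι → ℤ) (W : ℕ),
    (((Box a W).filter (fun x => p ^ 2 ∣ (Algebra.norm ℤ (∑ i, x i • b i)).natAbs)).card : ℝ) ≤
      C * ((W : ℝ) ^ Fintype.card ι / (p : ℝ) ^ 2 + 1)

/-- COND. The densities `hh K p` satisfy the conditions of the linear sieve.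

Proof. `0 ≤ hh K p ≤ 1` as the `absNorm P` are at least `1`. `hh K p ≤ ∑_{P ∈ PA K p} 1 / absNorm P ≤ d / p ≤
d / (p - 1)` (`S_PAF`; `1 - ∏ (1 - x_i) ≤ ∑ x_i`). Mertens in windows: `Pool.Agent.Y677.KU.mer_of_avg` with
`r p = p * hh K p`. Its hypothesis, average one over the primes, follows from the prime ideal theorem
`Pool.Agent.H484R2.pit` (imported here; `Nat.card (𝓞 K →+* ZMod p)` is the number of the `P` with `absNorm P = p`,
`Pool.Agent.H525.NF.card_homs` in `Pool/Agent/H525/NF/Mert.lean`) since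
`|p * hh K p - Nat.card (𝓞 K →+* ZMod p)| ≤ C / p`: the `P ∈ PA K p` of norm `≠ p` have norm at least `p ^ 2`, and
`∑ x_i - (∑ x_i) ^ 2 ≤ 1 - ∏ (1 - x_i) ≤ ∑ x_i` for `x_i ∈ [0, 1]`; the sum of `C / p` over the primes `p ≤ N`,
divided by the number `π(N)` of the primes, tends to `0` (the average of a null sequence). -/
def S_COND : Prop := ∀ (K : Type) [Field K] [NumberField K] (ε₁ β η : ℝ), 0 < ε₁ → ε₁ ≤ 1 → β ≤ 1 → 0 < η →
  ∃ Y0 : ℕ, ∀ Y : ℕ, Y0 ≤ Y → Cond (Module.finrank ℚ K) Y ε₁ β η (hh K)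

/-- VLOW. Lower bound for the product.

Proof. `1 - hh K p = ∏_{P ∈ PA K p} (1 - 1 / absNorm P) > 0` as `absNorm P ≥ 2`. For `p ≥ 2 d` we have `hh K p ≤ 1 / 2` and
`log (1 - h) ≥ -h - h ^ 2`, and `h = hh K p ≤ ν(p) / p + C / p ^ 2` with
`ν(p) = Nat.card (𝓞 K →+* ZMod p)` the number of the `P` of norm `p` (`Pool.Agent.H525.NF.card_homs`), and
`∑_{p ≤ w} ν(p) / p ≤ log log w + C` for large `w` (`Pool.Agent.H525.NF.homs_upper` in
`Pool/Agent/H525/NF/Mert.lean`). So the product over the `p ≤ Y` is at least `c / log Y` for large `Y`, and for the other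
`Y ≥ 2` it is positive (finitely many). `PZ Y ε₁` consists of primes `≤ Y`, and all factors are in `(0, 1]`. -/
def S_VLOW : Prop := ∀ (K : Type) [Field K] [NumberField K], ∃ c : ℝ, 0 < c ∧ ∀ (Y : ℕ) (ε₁ : ℝ), 2 ≤ Y →
  c / Real.log Y ≤ ∏ p ∈ PZ Y ε₁, (1 - hh K p)

/-- ERR. The sum of the errors.

Proof. Let `D = ∏ p`, `Y = W ^ d`, `D ≤ Y ^ σ`. For every `ε > 0` we have `(2 ^ d) ^ |T| ≤ C_ε D ^ ε`, as
`2 ^ d ≤ p ^ ε` for all primes `p` but finitely many. `W / D ^ (1 / d) = (Y / D) ^ (1 / d)`, so that the bracket is at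
most `(Y / D) ^ (1 - 1 / d) + 1`. `T` is determined by `D` (the set of the prime factors of `D`), so the sum is at
most a sum over the integers `1 ≤ D ≤ Y ^ σ` and at most
`Y ^ σ C C_ε Y ^ ε (…)`; for the first part use `D ^ (-(1 - 1 / d))` summed over `D ≤ Y ^ σ` is at most
`d Y ^ (σ / d)` (or, simpler, split dyadically or use `D ^ (-(1 - 1 / d)) ≤ Y ^ (σ / d) / D` and the harmonic sum
`≤ 1 + log Y`). In total `≤ C' Y ^ ε (1 + log Y) (Y ^ (1 - 1 / d) Y ^ (σ / d) + Y ^ σ)`, and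
`1 - 1 / d + σ / d < 1`, `σ < 1`. -/
def S_ERR : Prop := ∀ (d : ℕ) (C σ : ℝ), 1 ≤ d → 0 ≤ C → 0 < σ → σ < 1 → ∃ δ : ℝ, 0 < δ ∧ ∃ W0 : ℕ,
  ∀ W : ℕ, W0 ≤ W → ∀ 𝒯 : Finset (Finset ℕ), (∀ T ∈ 𝒯, (∀ p ∈ T, p.Prime) ∧
    ((∏ p ∈ T, p : ℕ) : ℝ) ≤ ((W ^ d : ℕ) : ℝ) ^ σ) →
  ∑ T ∈ 𝒯, ((2 : ℝ) ^ d) ^ T.card *
    (C * (((W : ℝ) / ((∏ p ∈ T, p : ℕ) : ℝ) ^ ((1 : ℝ) / d)) ^ (d - 1) + 1)) ≤
    ((W ^ d : ℕ) : ℝ) ^ (1 - δ)

end Pool.Agent.H525.SH
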